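import Pool.Agent.Hhelper49.Srr.Cpx

/-!
# Module FGen: groups of type (FP) are finitely generated

The kernel of a surjective linear map from a finitely generated module onto an FP module is finitely
generated: for the presentation `f : R^k → M` of the definition (pad the length) `ker f` is finitely
generated (an FP module is finitely generated); compare with another surjection `g : F → M` from
a finitely generated free `F` by Schanuel (`ker g × R^k ≃ ker f × F`).  Apply this to the augmentation
`ℤ[G] → Triv G`, `x ↦ x • 1`: the augmentation ideal `I` is finitely generated as a left ideal; every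
element of `I` is in the ideal generated by finitely many `s - 1`, `s ∈ S` finite (as `g - 1`, `g ∈ G`, generate
`I` as an abelian group).  Let `H` be the subgroup generated by `S`.  Then all `s - 1` act as zero on the
element `H` of the permutation module `ℤ[G / H]` (finitely supported functions on `G ⧸ H`), so `I` kills it,
`g H = H` for all `g`, so `H = G`.

(Variant used below: lift `ε : P 0 → ℤ` to `s : P 0 → ℤ[G]`, choose `ε e = 1`; then
`x = s (x e) + x (1 - s e)` for `x ∈ I`, and `ker ε` is the image of `P 1`.)
-/

namespace Pool.Agent.Hhelper49.Srr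

section
variable {G : Type} [Group G]

/-- the element `1` of the trivial module -/
private def one' (G : Type) : Triv G := (1 : ℤ)

private theorem smul_eq_sum {M : Type} [AddCommGroup M] [Module (MonoidAlgebra ℤ G) M]
    (a : MonoidAlgebra ℤ G) (v : M) : a • v = ∑ g ∈ a.coeff.support, a.coeff g • act g v := by
  have h : a = ∑ g ∈ a.coeff.support, MonoidAlgebra.single g (a.coeff g) :=
    (MonoidAlgebra.sum_coeff_single a).symm
  conv_lhs => rw [h]
  rw [Finset.sum_smul]
  exact Finset.sum_congr rfl fun g _ => single_smul g _ v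

/-- the augmentation of `a` as an integer -/
private theorem smul_one' (a : MonoidAlgebra ℤ G) :
    a • one' G = ((∑ g ∈ a.coeff.support, a.coeff g : ℤ) • one' G) := by
  rw [smul_eq_sum, Finset.sum_smul]
  exact Finset.sum_congr rfl fun g _ => by rw [act_triv]

private theorem zsmul_one' (n : ℤ) (h : n • one' G = 0) : n = 0 := by
  have h1 : n • (1 : ℤ) = 0 := h
  simpa using h1

/-- if `v` is fixed by `H` then an element with support in `H` and augmentation zero kills `v` -/
private theorem smul_of_support {M : Type} [AddCommGroup M] [Module (MonoidAlgebra ℤ G) M]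
    (H : Subgroup G) (v : M) (hv : ∀ g ∈ H, act g v = v) (a : MonoidAlgebra ℤ G)
    (ha : ∀ g ∈ a.coeff.support, g ∈ H) (h0 : a • one' G = 0) : a • v = 0 := by
  have h1 : (∑ g ∈ a.coeff.support, a.coeff g : ℤ) = 0 := by
    apply zsmul_one' (G := G)
    rw [← smul_one', h0]
  rw [smul_eq_sum, Finset.sum_congr rfl fun g hg => by rw [hv g (ha g hg)], ← Finset.sum_smul, h1,
    zero_smul]

end

theorem fg_of_typeFP (G : Type) [Group G] (h : TypeFP G) : Group.FG G := by
  classical
  obtain ⟨P, i1, i2, d, ε, n, h1, h2, -, h4, h5, h6, -⟩ := h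
  let ε' : P 0 →+ Triv G := ε
  have he : ∀ (g : G) (a : P 0), ε' (act g a) = act g (ε' a) := by
    intro g a
    rw [act_triv]
    exact h4 g a
  let E : P 0 →ₗ[MonoidAlgebra ℤ G] Triv G := mkLin ε' he
  have hE : LinearMap.ker E = LinearMap.range (d 0) := by
    ext x
    rw [LinearMap.mem_ker]
    exact h6 x
  let α : MonoidAlgebra ℤ G →ₗ[MonoidAlgebra ℤ G] Triv G :=
    LinearMap.toSpanSingleton (MonoidAlgebra ℤ G) (Triv G) (one' G)
  have hα : ∀ x, α x = x • one' G := fun x => rfl
  have hαs : Function.Surjective α := by
    intro m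
    obtain ⟨r, hr⟩ : ∃ r : ℤ, r • one' G = m := by
      have : ∀ n : ℤ, n • (1 : ℤ) = n := fun n => by simp
      exact ⟨m, this m⟩
    refine ⟨MonoidAlgebra.single 1 r, ?_⟩
    rw [hα, single_smul, act_triv, hr]
  have hproj := h2 0
  obtain ⟨s, hs⟩ := Module.projective_lifting_property α E hαs
  have hs' : ∀ x, α (s x) = E x := fun x => LinearMap.congr_fun hs x
  obtain ⟨e, he1⟩ := h5 1
  have hEe : E e = one' G := he1
  set N : Submodule (MonoidAlgebra ℤ G) (MonoidAlgebra ℤ G) :=
    (LinearMap.ker E).map s ⊔ Submodule.span _ {1 - s e} with hN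
  have hNfg : N.FG := by
    apply Submodule.FG.sup
    · apply Submodule.FG.map
      rw [hE]
      have := h1 1
      rw [LinearMap.range_eq_map]
      exact Submodule.FG.map _ (Module.Finite.fg_top)
    · exact Submodule.fg_span_singleton _
  have hNle : N ≤ LinearMap.ker α := by
    rw [hN, sup_le_iff]
    constructor
    · rintro _ ⟨x, hx, rfl⟩
      rw [LinearMap.mem_ker, hs']
      exact hx
    · rw [Submodule.span_singleton_le_iff_mem, LinearMap.mem_ker, map_sub, hs', hEe, hα, one_smul,
        sub_self]
  have hleN : LinearMap.ker α ≤ N := by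
    intro x hx
    rw [LinearMap.mem_ker, hα] at hx
    have h7 : x = s (x • e) + x • (1 - s e) := by
      rw [map_smul, smul_eq_mul, smul_eq_mul, mul_sub, mul_one]
      abel
    rw [h7]
    apply Submodule.add_mem
    · apply Submodule.mem_sup_left
      refine ⟨x • e, ?_, rfl⟩
      show E (x • e) = 0
      rw [map_smul, hEe, hx]
    · apply Submodule.mem_sup_right
      exact Submodule.smul_mem _ _ (Submodule.mem_span_singleton_self _)
  obtain ⟨T, hT⟩ := hNfg
  set S : Finset G := T.biUnion fun t => t.coeff.support with hS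
  set H : Subgroup G := Subgroup.closure (S : Set G) with hH
  let v : PMap G (G ⧸ H) (Triv G) := PMap.mk G fun x => if x = ((1 : G) : G ⧸ H) then one' G else 0
  have hv : ∀ g ∈ H, act g v = v := by
    intro g hg
    apply PMap.ext
    intro x
    rw [PMap.act_apply, act_triv]
    show (if g⁻¹ • x = ((1 : G) : G ⧸ H) then one' G else 0) =
      if x = ((1 : G) : G ⧸ H) then one' G else 0
    have h8 : (g⁻¹ • x = ((1 : G) : G ⧸ H)) ↔ x = ((1 : G) : G ⧸ H) := by
      rw [inv_smul_eq_iff]
      have h9 : g • ((1 : G) : G ⧸ H) = ((1 : G) : G ⧸ H) := by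
        rw [MulAction.Quotient.smul_coe, smul_eq_mul, mul_one, QuotientGroup.eq, mul_one]
        exact H.inv_mem hg
      rw [h9]
    simp only [h8]
  have hkill : ∀ x ∈ N, x • v = 0 := by
    intro x hx
    have h8 : N ≤ LinearMap.ker (LinearMap.toSpanSingleton (MonoidAlgebra ℤ G) _ v) := by
      rw [← hT, Submodule.span_le]
      intro t ht
      rw [SetLike.mem_coe, LinearMap.mem_ker, LinearMap.toSpanSingleton_apply]
      apply smul_of_support H v hv
      · intro g hg
        apply Subgroup.subset_closure
        rw [hS, Finset.coe_biUnion]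
        simp only [Set.mem_iUnion]
        exact ⟨t, ht, hg⟩
      · have h9 : t ∈ N := by rw [← hT]; exact Submodule.subset_span ht
        exact hNle h9
    exact h8 hx
  have htop : H = ⊤ := by
    rw [Subgroup.eq_top_iff']
    intro g
    have h8 : MonoidAlgebra.of ℤ G g - 1 ∈ N := by
      apply hleN
      rw [LinearMap.mem_ker, hα, sub_smul, one_smul]
      show act g (one' G) - one' G = 0
      rw [act_triv, sub_self]
    have h9 := hkill _ h8
    rw [sub_smul, one_smul, sub_eq_zero] at h9
    have h10 : (act g v).fn (g : G ⧸ H) = v.fn (g : G ⧸ H) :=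
      congrArg (fun f : PMap G (G ⧸ H) (Triv G) => f.fn (g : G ⧸ H)) h9
    rw [PMap.act_apply, act_triv] at h10
    have h11 : (if g⁻¹ • (g : G ⧸ H) = ((1 : G) : G ⧸ H) then one' G else 0) =
      if (g : G ⧸ H) = ((1 : G) : G ⧸ H) then one' G else 0 := h10
    rw [if_pos (by rw [MulAction.Quotient.smul_coe, smul_eq_mul, inv_mul_cancel])] at h11
    by_contra hg
    rw [if_neg (by
      rw [QuotientGroup.eq, mul_one]
      exact fun h => hg (H.inv_mem_iff.1 h))] at h11
    exact one_ne_zero (α := ℤ) h11
  rw [Group.fg_def]
  exact ⟨S, htop⟩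

end Pool.Agent.Hhelper49.Srr
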