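import Pool.Agent.Hhelper49.Srr.GDefs

/-!
# Module Betti: groups with virtual first Betti number at least two

`VirtBettiTwo G`: some subgroup of finite index of `G` maps onto `ℤ²`.

`betti_subgroup`: let `f : H → ℤ²` be onto, `H` of finite index in `G`, and `K` of finite index.  Then `H ∩ K` (as a
subgroup of `K`) has finite index in `K`, and finite index in `H`, so `f (H ∩ K)` has finite index in `ℤ²`; a subgroup
of finite index of `ℤ²` is isomorphic to `ℤ²` (free abelian of rank two: e.g. `Submodule.basisOfPid`, it contains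
`n ℤ²`).

`not_hyp_of_betti`: suppose all finite quotients of `G` are `p`-hyperelementary.  Choose a prime `l ≠ p` (`2` or `3`).
By composition with `ℤ² → (ℤ/l)²` a subgroup `H` of finite index maps onto `A = (ℤ/l)²`, let `M ≤ H` be the kernel,
`N ≤ M` the normal core in `G` of (the image in `G` of) `M`: `N` is normal of finite index in `G`.  `Q = G / N` is
`p`-hyperelementary: `C ≤ Q` cyclic normal of order prime to `p`, `|Q| = |C| p^k`.  Let `H'` be the image of `H` in `Q`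
(`H' = H / N`), which maps onto `A` (as `N ≤ M`).  Let `S` be a Sylow `l`-subgroup of `H'`; it maps onto the `l`-group `A`
(the index of the image of `S` divides `[H' : S]`, prime to `l`).  The image of `S` in `Q / C` is an `l`-group in a group of
order `p^k`, so trivial: `S ≤ C`, `S` is cyclic, so `A` is cyclic, contradiction.
-/

namespace Pool.Agent.Hhelper49.Srr

/-- some subgroup of finite index of `G` maps onto `ℤ²` -/
def VirtBettiTwo (G : Type) [Group G] : Prop :=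
  ∃ H : Subgroup G, H.FiniteIndex ∧ ∃ f : H →* Multiplicative (ℤ × ℤ), Function.Surjective f

private lemma bt_surj (R : Submodule ℤ (ℤ × ℤ)) (n m : ℤ) (hn : n ≠ 0) (hm : m ≠ 0)
    (h1 : ((n, 0) : ℤ × ℤ) ∈ R) (h2 : ((0, m) : ℤ × ℤ) ∈ R) :
    ∃ g : R →ₗ[ℤ] ℤ × ℤ, Function.Surjective g := by
  have hfr : Module.finrank ℤ R = Module.finrank ℤ (ℤ × ℤ) := by
    apply le_antisymm (Submodule.finrank_le R)
    have hli : LinearIndependent ℤ ![(⟨(n, 0), h1⟩ : R), (⟨(0, m), h2⟩ : R)] := by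
      rw [LinearIndependent.pair_iff]
      intro s t hst
      have h3 := congrArg Subtype.val hst
      have h4 : s * n = 0 ∧ t * m = 0 := by simpa using h3
      exact ⟨(mul_eq_zero.1 h4.1).resolve_right hn, (mul_eq_zero.1 h4.2).resolve_right hm⟩
    have h3 := hli.fintype_card_le_finrank
    simpa using h3
  exact ⟨(LinearEquiv.ofFinrankEq R (ℤ × ℤ) hfr).toLinearMap,
    (LinearEquiv.ofFinrankEq R (ℤ × ℤ) hfr).surjective⟩

theorem betti_subgroup (G : Type) [Group G] (h : VirtBettiTwo G) (K : Subgroup G)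
    [K.FiniteIndex] : VirtBettiTwo K := by
  obtain ⟨H, hH, f, hf⟩ := h
  have hKH : (K.subgroupOf H).index ≠ 0 := Subgroup.FiniteIndex.index_ne_zero
  set φ : H.subgroupOf K →* H := MonoidHom.mk' (fun x => ⟨x.1.1, x.2⟩) (fun a b => rfl) with hφ
  set R : Submodule ℤ (ℤ × ℤ) := AddSubgroup.toIntSubmodule
    { carrier := {v | ∃ x, Multiplicative.toAdd (f (φ x)) = v}
      zero_mem' := ⟨1, by simp⟩
      add_mem' := by
        rintro a b ⟨x, rfl⟩ ⟨y, rfl⟩
        exact ⟨x * y, by simp⟩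
      neg_mem' := by
        rintro a ⟨x, rfl⟩
        exact ⟨x⁻¹, by simp⟩ } with hR
  have hmem : ∀ x, Multiplicative.toAdd (f (φ x)) ∈ R := fun x => ⟨x, rfl⟩
  have hpow : ∀ v : ℤ × ℤ, ∃ n : ℕ, 0 < n ∧ n • v ∈ R := by
    intro v
    obtain ⟨x, hx⟩ := hf (Multiplicative.ofAdd v)
    obtain ⟨n, hn, -, hxn⟩ := Subgroup.exists_pow_mem_of_index_ne_zero hKH x
    refine ⟨n, hn, ?_⟩
    have h1 : ((x ^ n : H) : G) ∈ K := hxn
    refine ⟨⟨⟨((x ^ n : H) : G), h1⟩, (x ^ n).2⟩, ?_⟩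
    have h2 : φ ⟨⟨((x ^ n : H) : G), h1⟩, (x ^ n).2⟩ = x ^ n := Subtype.ext rfl
    rw [h2, map_pow, hx]
    rfl
  obtain ⟨n, hn, hn1⟩ := hpow (1, 0)
  obtain ⟨m, hm, hm1⟩ := hpow (0, 1)
  obtain ⟨g, hg⟩ := bt_surj R n m (by exact_mod_cast hn.ne') (by exact_mod_cast hm.ne')
    (by simpa using hn1) (by simpa using hm1)
  refine ⟨H.subgroupOf K, inferInstance, MonoidHom.mk' (fun x => Multiplicative.ofAdd
    (g ⟨Multiplicative.toAdd (f (φ x)), hmem x⟩)) ?_, ?_⟩
  · intro a b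
    rw [← ofAdd_add, ← map_add]
    congr 2
    exact Subtype.ext (by simp)
  · intro v
    obtain ⟨⟨w, x, hx⟩, hw⟩ := hg (Multiplicative.toAdd v)
    refine ⟨x, ?_⟩
    simp only [MonoidHom.mk'_apply]
    have h1 : (⟨Multiplicative.toAdd (f (φ x)), hmem x⟩ : R) = ⟨w, x, hx⟩ := Subtype.ext hx
    rw [h1, hw]
    rfl

private lemma bt_mem {Q : Type} [Group Q] {p l : ℕ} (hp : p.Prime) (hl : l.Prime)
    (hpl : l ≠ p) (C : Subgroup Q) [C.Normal] {m : ℕ}
    (hidx : C.index = p ^ m) {y : Q} {k : ℕ}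
    (hy : y ^ (l ^ k) = 1) : y ∈ C := by
  have h2 : y ^ (p ^ m) ∈ C := by
    rw [← hidx]
    exact C.pow_index_mem y
  have hcop : Nat.Coprime (l ^ k) (p ^ m) :=
    Nat.Coprime.pow _ _ ((Nat.coprime_primes hl hp).mpr hpl)
  have h3 := Nat.gcd_eq_gcd_ab (l ^ k) (p ^ m)
  rw [hcop.gcd_eq_one] at h3
  have h4 : y = (y ^ (l ^ k)) ^ (Nat.gcdA (l ^ k) (p ^ m)) *
      (y ^ (p ^ m)) ^ (Nat.gcdB (l ^ k) (p ^ m)) := by
    rw [← zpow_natCast y (l ^ k), ← zpow_natCast y (p ^ m), ← zpow_mul, ← zpow_mul, ← zpow_add,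
      ← h3]
    simp
  rw [h4, hy, one_zpow, one_mul]
  exact zpow_mem h2 _

theorem not_hyp_of_betti (G : Type) [Group G] (h : VirtBettiTwo G) (p : ℕ) (hp : p.Prime)
    (hQ : ∀ (Q : Type) [Group Q] [Finite Q] (π : G →* Q), Function.Surjective π →
      IsHyp p (⊤ : Subgroup Q)) : False := by
  obtain ⟨H, hH, f, hf⟩ := h
  obtain ⟨l, hl, hlp⟩ : ∃ l : ℕ, l.Prime ∧ l ≠ p := by
    by_cases h2 : p = 2
    · exact ⟨3, Nat.prime_three, by omega⟩
    · exact ⟨2, Nat.prime_two, Ne.symm h2⟩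
  have : Fact l.Prime := ⟨hl⟩
  set q : H →* Multiplicative (ZMod l × ZMod l) := MonoidHom.mk'
    (fun x => Multiplicative.ofAdd (((Multiplicative.toAdd (f x)).1 : ZMod l),
      ((Multiplicative.toAdd (f x)).2 : ZMod l))) (by
      intro a b
      rw [← ofAdd_add]
      congr 1
      simp) with hq
  have hqf : q.ker.FiniteIndex := inferInstance
  have hM : (q.ker.map H.subtype).FiniteIndex := ⟨by
    rw [Subgroup.index_map_subtype]
    exact mul_ne_zero Subgroup.FiniteIndex.index_ne_zero Subgroup.FiniteIndex.index_ne_zero⟩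
  set N := (q.ker.map H.subtype).normalCore with hN
  have hNM : ∀ x : H, (x : G) ∈ N → q x = 1 := by
    intro x hx
    obtain ⟨y, hy, hyx⟩ := (q.ker.map H.subtype).normalCore_le hx
    have h1 : y = x := Subtype.ext hyx
    rw [← h1]
    exact hy
  have hfin : Finite (G ⧸ N) := Subgroup.finite_quotient_of_finiteIndex
  set π : G →* G ⧸ N := QuotientGroup.mk' N with hπ
  obtain ⟨C, -, hCn, hCc, -, k, hk⟩ := hQ (G ⧸ N) π (QuotientGroup.mk'_surjective N)
  have hn : C.Normal := ⟨fun c hc x => hCn x (Subgroup.mem_top x) c hc⟩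
  have hidx : C.index = p ^ k := by
    have h1 := C.card_mul_index
    rw [Subgroup.card_top, ← h1] at hk
    exact Nat.eq_of_mul_eq_mul_left Nat.card_pos hk
  set ρ : H →* G ⧸ N := π.comp H.subtype with hρ
  set D : Subgroup H := C.comap ρ with hD
  have hE : D.map ρ ≤ C := Subgroup.map_comap_le _ _
  have hEc : IsCyclic (D.map ρ) := Subgroup.isCyclic_of_le hE
  obtain ⟨⟨e, he⟩, hgen⟩ := hEc.exists_generator
  obtain ⟨d, hd, hde⟩ := he
  have hρN : ∀ x : H, ρ x = 1 → q x = 1 := by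
    intro x hx
    exact hNM x ((QuotientGroup.eq_one_iff (x : G)).1 hx)
  have key : ∀ x : H, ∃ (r : ℕ) (t : ℤ), ¬ l ∣ r ∧ q x ^ r = q d ^ t := by
    intro x
    have h1 : orderOf (ρ x) ≠ 0 := (orderOf_pos (ρ x)).ne'
    obtain ⟨a, r, hr, har⟩ := Nat.exists_eq_pow_mul_and_not_dvd h1 l hl.ne_one
    have h2 : (ρ x ^ r) ^ (l ^ a) = 1 := by
      rw [← pow_mul, mul_comm, ← har, pow_orderOf_eq_one]
    have h3 : ρ x ^ r ∈ C := bt_mem hp hl hlp C hidx h2
    have h4 : x ^ r ∈ D := by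
      rw [hD, Subgroup.mem_comap, map_pow]
      exact h3
    have h5 : ρ (x ^ r) ∈ D.map ρ := ⟨x ^ r, h4, rfl⟩
    obtain ⟨t, ht⟩ := hgen ⟨ρ (x ^ r), h5⟩
    refine ⟨r, t, hr, ?_⟩
    have h6 : e ^ t = ρ (x ^ r) := congrArg Subtype.val ht
    rw [← hde, ← map_zpow] at h6
    have h7 : ρ ((d ^ t)⁻¹ * x ^ r) = 1 := by
      rw [map_mul, map_inv, h6, inv_mul_cancel]
    have h8 := hρN _ h7
    rw [map_mul, map_inv, inv_mul_eq_one, map_zpow, map_pow] at h8
    exact h8.symm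
  have key2 : ∀ v : ℤ × ℤ, ∃ (r : ℕ) (t : ℤ), (r : ZMod l) ≠ 0 ∧
      (r : ZMod l) * (v.1 : ZMod l) = (t : ZMod l) * (Multiplicative.toAdd (q d)).1 ∧
      (r : ZMod l) * (v.2 : ZMod l) = (t : ZMod l) * (Multiplicative.toAdd (q d)).2 := by
    intro v
    obtain ⟨x, hx⟩ := hf (Multiplicative.ofAdd v)
    obtain ⟨r, t, hr, hrt⟩ := key x
    have h1 : q x = Multiplicative.ofAdd ((v.1 : ZMod l), (v.2 : ZMod l)) := by
      rw [hq, MonoidHom.mk'_apply, hx]
      rfl
    rw [h1] at hrt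
    have h2 := congrArg Multiplicative.toAdd hrt
    rw [toAdd_pow, toAdd_zpow, toAdd_ofAdd] at h2
    refine ⟨r, t, fun h0 => hr ((ZMod.natCast_eq_zero_iff r l).1 h0), ?_, ?_⟩
    · have h3 := congrArg Prod.fst h2
      simpa using h3
    · have h3 := congrArg Prod.snd h2
      simpa using h3
  obtain ⟨r, t, hr, h1, h2⟩ := key2 (1, 0)
  obtain ⟨r', t', hr', h1', h2'⟩ := key2 (0, 1)
  simp only [Int.cast_one, Int.cast_zero, mul_one, mul_zero] at h1 h2 h1' h2'
  have ht : (t : ZMod l) ≠ 0 := by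
    intro h0
    rw [h0, zero_mul] at h1
    exact hr h1
  have hw : (Multiplicative.toAdd (q d)).2 = 0 := by
    rcases mul_eq_zero.1 h2.symm with h3 | h3
    · exact absurd h3 ht
    · exact h3
  rw [hw, mul_zero] at h2'
  exact hr' h2'

end Pool.Agent.Hhelper49.Srr
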