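import Pool.Agent.Hhelper49.Srr.GDefs

/-!
# Virtually residually-`l` groups
-/

namespace Pool.Agent.Hhelper49.Srr

/-- `G` has a subgroup `N` of finite index which is residually a finite `l`-group: every `x ≠ 1` in
`N` is outside some normal subgroup of `N` whose index is a power of `l` -/
def VirtResid (l : ℕ) (G : Type) [Group G] : Prop :=
  ∃ N : Subgroup G, N.FiniteIndex ∧ ∀ x : N, x ≠ 1 →
    ∃ K : Subgroup N, K.Normal ∧ (∃ k : ℕ, K.index = l ^ k) ∧ x ∉ K

/-- no element of finite order except `1` -/
def TorFree (G : Type) [Group G] : Prop := ∀ (g : G) (n : ℕ), 0 < n → g ^ n = 1 → g = 1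

end Pool.Agent.Hhelper49.Srr
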