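import Pool.Agent.Hhelper49.Srr.Cpx
import Pool.Agent.Hhelper49.Srd.Defs

/-!
# Module CycFF: torsion free cyclic groups are of type (FF)

If `G` is trivial then `ℤ[G] → Triv G` is an isomorphism.  Otherwise `G` is infinite cyclic with
generator `t` and `0 → ℤ[G] → ℤ[G] → Triv G → 0` is exact, the first map is right multiplication by
`t - 1` (injective: look at the highest power; exact: Laurent polynomials vanishing at `1` are divisible by
`t - 1`).  Use `ff_coker` and `typeFF_of_ff`, or give the complex directly.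
-/

namespace Pool.Agent.Hhelper49.Srr

namespace CycAux

variable (G : Type) [Group G]

/-- the augmentation, as a ring homomorphism -/
noncomputable def augR : MonoidAlgebra ℤ G →ₐ[ℤ] ℤ := MonoidAlgebra.lift ℤ ℤ G 1

theorem augR_of (g : G) : augR G (MonoidAlgebra.of ℤ G g) = 1 := by
  unfold augR
  rw [MonoidAlgebra.lift_of]
  rfl

theorem augR_single (g : G) (r : ℤ) : augR G (MonoidAlgebra.single g r) = r := by
  unfold augR
  rw [MonoidAlgebra.lift_single]
  simp

/-- the augmentation, as a linear map to the trivial module -/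
noncomputable def aug : MonoidAlgebra ℤ G →ₗ[MonoidAlgebra ℤ G] Triv G :=
  mkLin ((augR G : MonoidAlgebra ℤ G →ₐ[ℤ] ℤ).toRingHom.toAddMonoidHom :
    MonoidAlgebra ℤ G →+ Triv G) (by
      intro g a
      rw [act_triv]
      change augR G (MonoidAlgebra.of ℤ G g * a) = augR G a
      rw [map_mul, augR_of, one_mul])

theorem aug_apply (a : MonoidAlgebra ℤ G) : aug G a = augR G a := rfl

theorem aug_surj : Function.Surjective (aug G) := by
  intro n
  exact ⟨MonoidAlgebra.single 1 (n : ℤ), augR_single G 1 n⟩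

/-- right multiplication by `t - 1` -/
noncomputable def rmul (t : G) : MonoidAlgebra ℤ G →ₗ[MonoidAlgebra ℤ G] MonoidAlgebra ℤ G :=
  LinearMap.toSpanSingleton (MonoidAlgebra ℤ G) (MonoidAlgebra ℤ G) (MonoidAlgebra.of ℤ G t - 1)

theorem rmul_apply (t : G) (x : MonoidAlgebra ℤ G) :
    rmul G t x = x * (MonoidAlgebra.of ℤ G t - 1) := rfl

theorem zpow_mem (t : G) (k : ℤ) : MonoidAlgebra.of ℤ G (t ^ k) - 1 ∈ LinearMap.range (rmul G t) := by
  induction k using Int.induction_on with
  | zero =>
    rw [zpow_zero, map_one, sub_self]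
    exact Submodule.zero_mem _
  | succ k ih =>
    have h1 : MonoidAlgebra.of ℤ G (t ^ ((k : ℤ) + 1)) - 1 =
        rmul G t (MonoidAlgebra.of ℤ G (t ^ (k : ℤ))) + (MonoidAlgebra.of ℤ G (t ^ (k : ℤ)) - 1) := by
      rw [rmul_apply, zpow_add_one, map_mul]
      noncomm_ring
    rw [h1]
    exact Submodule.add_mem _ ⟨_, rfl⟩ ih
  | pred k ih =>
    have h1 : MonoidAlgebra.of ℤ G (t ^ (-(k : ℤ) - 1)) - 1 =
        (MonoidAlgebra.of ℤ G (t ^ (-(k : ℤ))) - 1) -
          rmul G t (MonoidAlgebra.of ℤ G (t ^ (-(k : ℤ) - 1))) := by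
      have h2 : t ^ (-(k : ℤ)) = t ^ (-(k : ℤ) - 1) * t := by
        rw [← zpow_add_one, sub_add_cancel]
      rw [rmul_apply, h2, map_mul]
      noncomm_ring
    rw [h1]
    exact Submodule.sub_mem _ ih ⟨_, rfl⟩

theorem sub_mem (t : G) (ht : ∀ g : G, g ∈ Subgroup.zpowers t) (x : MonoidAlgebra ℤ G) :
    x - MonoidAlgebra.single 1 (augR G x) ∈ LinearMap.range (rmul G t) := by
  induction x using MonoidAlgebra.induction_linear with
  | zero =>
    rw [map_zero, MonoidAlgebra.single_zero, sub_zero]
    exact Submodule.zero_mem _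
  | add x y hx hy =>
    rw [map_add, MonoidAlgebra.single_add, add_sub_add_comm]
    exact Submodule.add_mem _ hx hy
  | single g r =>
    obtain ⟨k, rfl⟩ := Subgroup.mem_zpowers_iff.mp (ht g)
    rw [augR_single]
    have h1 : MonoidAlgebra.single (t ^ k) r - MonoidAlgebra.single 1 r =
        r • (MonoidAlgebra.of ℤ G (t ^ k) - 1) := by
      rw [smul_sub]
      simp [MonoidAlgebra.one_def]
    rw [h1]
    exact zsmul_mem (zpow_mem G t k) r

theorem range_eq (t : G) (ht : ∀ g : G, g ∈ Subgroup.zpowers t) :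
    LinearMap.range (rmul G t) = LinearMap.ker (aug G) := by
  apply le_antisymm
  · rintro _ ⟨x, rfl⟩
    rw [LinearMap.mem_ker, aug_apply, rmul_apply, map_mul, map_sub, augR_of, map_one, sub_self,
      mul_zero]
    rfl
  · intro x hx
    have h1 : augR G x = 0 := hx
    have h2 := sub_mem G t ht x
    rw [h1, MonoidAlgebra.single_zero, sub_zero] at h2
    exact h2

theorem rmul_inj (t : G) (h1 : t ≠ 1) (hF : TorFree G) : Function.Injective (rmul G t) := by
  rw [injective_iff_map_eq_zero]
  intro x hx
  rw [rmul_apply, mul_sub, mul_one, sub_eq_zero] at hx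
  have h2 : ∀ g : G, x.coeff (g * t⁻¹) = x.coeff g := by
    intro g
    have h3 := congrArg (fun y => MonoidAlgebra.coeff y g) hx
    simp only [MonoidAlgebra.of_apply] at h3
    rw [MonoidAlgebra.coeff_mul_single_eq_coeff_mul (g * t⁻¹)
      (fun m' _ => eq_mul_inv_iff_mul_eq.symm), mul_one] at h3
    exact h3
  have h4 : ∀ (n : ℕ) (g : G), x.coeff (g * t⁻¹ ^ n) = x.coeff g := by
    intro n
    induction n with
    | zero => intro g; rw [pow_zero, mul_one]
    | succ n ih =>
      intro g
      rw [pow_succ, ← mul_assoc, h2, ih]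
  have h5 : ∀ g, x.coeff g = 0 := by
    intro g
    by_contra hne
    have h6 : (Set.range fun n : ℕ => g * t⁻¹ ^ n) ⊆ (x.coeff.support : Set G) := by
      rintro _ ⟨n, rfl⟩
      rw [Finset.mem_coe, Finsupp.mem_support_iff, h4]
      exact hne
    have h7 : Function.Injective fun n : ℕ => g * t⁻¹ ^ n := by
      intro a b hab
      have h8 : t⁻¹ ^ a = t⁻¹ ^ b := mul_left_cancel hab
      by_contra hab'
      rcases lt_or_gt_of_ne hab' with h9 | h9
      · have h10 : t⁻¹ ^ (b - a) = 1 := by
          rw [← pow_sub_mul_pow t⁻¹ h9.le] at h8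
          exact (mul_right_cancel ((one_mul (t⁻¹ ^ a)).trans h8)).symm
        exact h1 (inv_eq_one.mp (hF _ _ (by omega) h10))
      · have h10 : t⁻¹ ^ (a - b) = 1 := by
          rw [← pow_sub_mul_pow t⁻¹ h9.le] at h8
          exact (mul_right_cancel ((one_mul (t⁻¹ ^ b)).trans h8.symm)).symm
        exact h1 (inv_eq_one.mp (hF _ _ (by omega) h10))
    exact Set.infinite_range_of_injective h7 ((Finset.finite_toSet _).subset h6)
  ext g
  exact h5 g

theorem ff_self : FF (MonoidAlgebra ℤ G) (MonoidAlgebra ℤ G) :=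
  ⟨0, Module.Finite.self _, Module.Free.self _⟩

end CycAux

open CycAux

theorem typeFF_of_cyclic (G : Type) [Group G] (hc : IsCyclic G) (ht : TorFree G) : TypeFF G := by
  apply typeFF_of_ff
  obtain ⟨t, hgen⟩ := hc.exists_generator
  by_cases h1 : t = 1
  · have hG : ∀ g : G, g = 1 := by
      intro g
      have h2 := hgen g
      rw [h1, Subgroup.zpowers_one_eq_bot, Subgroup.mem_bot] at h2
      exact h2
    have hinj : Function.Injective (aug G) := by
      rw [injective_iff_map_eq_zero]
      intro x hx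
      have h3 : augR G x = 0 := hx
      have h4 : x = MonoidAlgebra.single 1 (augR G x) := by
        clear h3 hx
        induction x using MonoidAlgebra.induction_linear with
        | zero => rw [map_zero, MonoidAlgebra.single_zero]
        | add x y hx hy => rw [map_add, MonoidAlgebra.single_add, ← hx, ← hy]
        | single g r => rw [hG g, augR_single]
      rw [h4, h3, MonoidAlgebra.single_zero]
    exact ff_iso (LinearEquiv.ofBijective (aug G) ⟨hinj, aug_surj G⟩) (ff_self G)
  · exact ff_coker (rmul G t) (aug G) (rmul_inj G t h1 ht) (aug_surj G) (range_eq G t hgen)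
      (ff_self G) (ff_self G)

end Pool.Agent.Hhelper49.Srr
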