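import Pool.Agent.Hhelper49.Srd.Defs

/-!
# Module Hyp: groups all of whose finite quotients are `p`-hyperelementary

`G` is finitely generated and torsion free, every finite quotient of `G` is `p`-hyperelementary, `l ≠ p` is a
prime and `G` is virtually residually-`l`.  Then `G` has a normal subgroup of finite index
which is cyclic.

Let `N₀` be as in `VirtResid`, `N` its normal core (normal in `G`, finite index, again residually-`l`: intersect
the subgroups `K` with `N`, the index of `K ∩ N` in `N` divides a power of `l`).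
(1) If `K ≤ N` is normal in `G` and `[N : K]` is a power of `l` then `N / K` is cyclic: `Q = G / K` is finite and
`p`-hyperelementary, with cyclic normal `C` and `|Q| = |C| p^k`; the image of `N / K` in `Q / C` is both an
`l`-group and in a `p`-group, so trivial: `N / K ≤ C`.
(2) `N` is abelian: let `x, y ∈ N` with `z = x y x⁻¹ y⁻¹ ≠ 1`; there is `K` normal in `N` of `l`-power index with
`z ∉ K`; `K' = ⋂_g g K g⁻¹` (finitely many conjugates, as `K` is normal in `N` of finite index in `G`; the
index of a finite intersection of normal subgroups of `l`-power index has `l`-power index) is normal in `G`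
and `N / K'` is cyclic by (1), so `z ∈ K' ≤ K`, contradiction.
(3) `N` is finitely generated (finite index in `G`), abelian and torsion free, so `N ≅ ℤ^r`; the subgroup
`N^l` of `l`-th powers is normal in `G` with `[N : N^l] = l^r`, `N / N^l` is cyclic by (1), so `r ≤ 1`.
-/

namespace Pool.Agent.Hhelper49.Srr

open Subgroup

private lemma exists_normal_pow {G : Type} [Group G] {l : ℕ} (hl : 0 < l) (N0 : Subgroup G)
    [N0.FiniteIndex]
    (h0 : ∀ x : N0, x ≠ 1 → ∃ K : Subgroup N0, K.Normal ∧ (∃ k : ℕ, K.index = l ^ k) ∧ x ∉ K)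
    (z : G) (hz : z ∈ N0.normalCore) (hz1 : z ≠ 1) :
    ∃ K : Subgroup G, K.Normal ∧ K.FiniteIndex ∧ z ∉ K ∧
      ∃ k : ℕ, ∀ x ∈ N0.normalCore, x ^ (l ^ k) ∈ K := by
  obtain ⟨K, hK, ⟨k, hk⟩, hzK⟩ := h0 ⟨z, N0.normalCore_le hz⟩ (by
    intro h
    exact hz1 (congrArg Subtype.val h))
  have hKfi : K.index ≠ 0 := by
    rw [hk]
    positivity
  have hK1 : (K.map N0.subtype).FiniteIndex := ⟨by
    rw [index_map_subtype]
    exact mul_ne_zero hKfi FiniteIndex.index_ne_zero⟩
  have hzK1 : z ∉ K.map N0.subtype := by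
    rintro ⟨w, hw, hwz⟩
    apply hzK
    have h : w = ⟨z, N0.normalCore_le hz⟩ := Subtype.ext hwz
    rwa [← h]
  refine ⟨(K.map N0.subtype).normalCore, inferInstance, inferInstance,
    fun h => hzK1 ((K.map N0.subtype).normalCore_le h), k, ?_⟩
  intro x hx g
  have h1 : g * x * g⁻¹ ∈ N0 := hx g
  have h2 : (⟨g * x * g⁻¹, h1⟩ : N0) ^ (l ^ k) ∈ K := by
    rw [← hk]
    exact K.pow_index_mem _
  refine ⟨_, h2, ?_⟩
  simp [conj_pow]

private lemma mem_of_hyp {Q : Type} [Group Q] [Finite Q] {p l : ℕ} (hp : p.Prime) (hl : l.Prime)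
    (hpl : l ≠ p) (C : Subgroup Q) (hC : ∀ h ∈ (⊤ : Subgroup Q), ∀ c ∈ C, h * c * h⁻¹ ∈ C) {m : ℕ}
    (hm : Nat.card (⊤ : Subgroup Q) = Nat.card C * p ^ m) {y : Q} {k : ℕ}
    (hy : y ^ (l ^ k) = 1) : y ∈ C := by
  have hn : C.Normal := ⟨fun c hc h => hC h (mem_top h) c hc⟩
  have hidx : C.index = p ^ m := by
    have h1 := C.card_mul_index
    rw [card_top, ← h1] at hm
    exact Nat.eq_of_mul_eq_mul_left Nat.card_pos hm
  have h2 : y ^ (p ^ m) ∈ C := by
    rw [← hidx]
    exact C.pow_index_mem y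
  have hcop : Nat.Coprime (l ^ k) (p ^ m) :=
    Nat.Coprime.pow _ _ ((Nat.coprime_primes hl hp).mpr hpl)
  have h3 := Nat.gcd_eq_gcd_ab (l ^ k) (p ^ m)
  rw [hcop.gcd_eq_one] at h3
  have h4 : y = (y ^ (l ^ k)) ^ (Nat.gcdA (l ^ k) (p ^ m)) *
      (y ^ (p ^ m)) ^ (Nat.gcdB (l ^ k) (p ^ m)) := by
    rw [← zpow_natCast y (l ^ k), ← zpow_natCast y (p ^ m), ← zpow_mul, ← zpow_mul, ← zpow_add,
      ← h3]
    simp
  rw [h4, hy, one_zpow, one_mul]
  exact zpow_mem h2 _

/-- the quotient of `G` by a normal subgroup of finite index is hyperelementary: images of elements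
with `x ^ (l ^ k) ∈ K` lie in a cyclic subgroup -/
private lemma exists_cyclic_image {G : Type} [Group G] {p l : ℕ}
    (hp : p.Prime) (hl : l.Prime) (hpl : l ≠ p)
    (hQ : ∀ (Q : Type) [Group Q] [Finite Q] (π : G →* Q), Function.Surjective π →
      IsHyp p (⊤ : Subgroup Q)) (K : Subgroup G) [K.Normal] [K.FiniteIndex] :
    ∃ C : Subgroup (G ⧸ K), IsCyclic C ∧ ∀ (x : G) (k : ℕ), x ^ (l ^ k) ∈ K →
      (QuotientGroup.mk' K x) ∈ C := by
  obtain ⟨C, -, h2, h3, -, m, h5⟩ := hQ (G ⧸ K) (QuotientGroup.mk' K)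
    (QuotientGroup.mk'_surjective K)
  refine ⟨C, h3, fun x k hx => mem_of_hyp hp hl hpl C h2 h5 (k := k) ?_⟩
  rw [← map_pow]
  exact (QuotientGroup.eq_one_iff _).mpr hx

theorem exists_cyclic_normal (G : Type) [Group G] [Group.FG G] (ht : TorFree G) (p l : ℕ)
    (hp : p.Prime) (hl : l.Prime) (hpl : l ≠ p)
    (hQ : ∀ (Q : Type) [Group Q] [Finite Q] (π : G →* Q), Function.Surjective π →
      IsHyp p (⊤ : Subgroup Q))
    (hv : VirtResid l G) :
    ∃ N : Subgroup G, N.Normal ∧ N.FiniteIndex ∧ IsCyclic N := by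
  obtain ⟨N0, hN0, h0⟩ := hv
  refine ⟨N0.normalCore, inferInstance, inferInstance, ?_⟩
  obtain ⟨N, hN⟩ : ∃ N, N = N0.normalCore := ⟨_, rfl⟩
  have hNn : N.Normal := hN ▸ inferInstance
  have hNf : N.FiniteIndex := hN ▸ inferInstance
  rw [← hN]
  -- `N` is abelian
  have hcomm : ∀ x ∈ N, ∀ y ∈ N, x * y = y * x := by
    intro x hx y hy
    by_contra hne
    have hz1 : x * y * x⁻¹ * y⁻¹ ≠ 1 := by
      intro h
      apply hne
      rw [mul_inv_eq_one] at h
      rw [mul_inv_eq_iff_eq_mul] at h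
      exact h
    have hz : x * y * x⁻¹ * y⁻¹ ∈ N :=
      mul_mem (mul_mem (mul_mem hx hy) (inv_mem hx)) (inv_mem hy)
    rw [hN] at hz
    obtain ⟨K, hK, hKf, hzK, k, hk⟩ := exists_normal_pow hl.pos N0 h0 _ hz hz1
    obtain ⟨C, hC, hCx⟩ := exists_cyclic_image hp hl hpl hQ K
    have ex := hCx x k (hk x (hN ▸ hx))
    have ey := hCx y k (hk y (hN ▸ hy))
    apply hzK
    rw [← QuotientGroup.eq_one_iff]
    change QuotientGroup.mk' K (x * y * x⁻¹ * y⁻¹) = 1
    rw [map_mul, map_mul, map_mul, map_inv, map_inv]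
    have hcc := (IsCyclic.commGroup (α := C)).mul_comm ⟨_, ex⟩ ⟨_, ey⟩
    have hcc' : QuotientGroup.mk' K x * QuotientGroup.mk' K y =
        QuotientGroup.mk' K y * QuotientGroup.mk' K x := congrArg Subtype.val hcc
    rw [hcc']
    group
  let _ : CommGroup N :=
    { (inferInstance : Group N) with
      mul_comm := fun a b => Subtype.ext (hcomm a a.2 b b.2) }
  have hfg : Group.FG N := fg_of_index_ne_zero N
  have htf : ∀ (x : N) (n : ℕ), 0 < n → x ^ n = 1 → x = 1 := by
    intro x n hn hx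
    apply Subtype.ext
    exact ht x n hn (by rw [← Subgroup.coe_pow, hx]; rfl)
  -- the subgroup of `l`-th powers
  obtain ⟨K, hK⟩ : ∃ K : Subgroup G, K = ((powMonoidHom l : N →* N).range).map N.subtype :=
    ⟨_, rfl⟩
  have hKmem : ∀ x : G, x ∈ K ↔ ∃ y : N, (y : G) ^ l = x := by
    intro x
    rw [hK]
    constructor
    · rintro ⟨w, ⟨y, hy⟩, hw⟩
      refine ⟨y, ?_⟩
      rw [← hw, ← hy]
      rfl
    · rintro ⟨y, hy⟩
      exact ⟨y ^ l, ⟨y, rfl⟩, by rw [← hy]; rfl⟩
  have hKn : K.Normal := by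
    constructor
    intro x hx g
    rw [hKmem] at hx ⊢
    obtain ⟨y, hy⟩ := hx
    refine ⟨⟨g * y * g⁻¹, hNn.conj_mem y y.2 g⟩, ?_⟩
    rw [← hy]
    simp [conj_pow]
  have hKf : K.FiniteIndex := by
    have h1 : Finite (N ⧸ (powMonoidHom l : N →* N).range) := by
      apply CommGroup.finite_of_fg_isMulTorsion
      intro x
      obtain ⟨y, rfl⟩ := QuotientGroup.mk'_surjective _ x
      rw [isOfFinOrder_iff_pow_eq_one]
      refine ⟨l, hl.pos, ?_⟩
      rw [← map_pow]
      exact (QuotientGroup.eq_one_iff _).mpr ⟨y, rfl⟩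
    have h2 : ((powMonoidHom l : N →* N).range).index ≠ 0 := by
      rw [index_eq_card]
      exact Nat.card_pos.ne'
    constructor
    rw [hK, index_map_subtype]
    exact mul_ne_zero h2 FiniteIndex.index_ne_zero
  obtain ⟨C, hC, hCx⟩ := exists_cyclic_image hp hl hpl hQ K
  -- the basis
  have : Module.Finite ℤ (Additive N) := Module.Finite.iff_addGroup_fg.mpr inferInstance
  have : Module.IsTorsionFree ℤ (Additive N) := by
    rw [Module.isTorsionFree_iff_smul_eq_zero]
    intro r m hrm
    by_cases hr : r = 0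
    · exact Or.inl hr
    right
    have h1 : (Additive.toMul m) ^ r.natAbs = 1 := by
      have h2 : (Additive.toMul m) ^ r = 1 := by
        rw [← toMul_zsmul, hrm]
        rfl
      rcases Int.natAbs_eq r with h | h
      · rw [h, zpow_natCast] at h2
        exact h2
      · rw [h, zpow_neg, zpow_natCast, inv_eq_one] at h2
        exact h2
    have h3 := htf _ _ (Int.natAbs_pos.mpr hr) h1
    exact h3
  have hfree : Module.Free ℤ (Additive N) := Module.free_of_finite_type_torsion_free'
  let b := Module.Free.chooseBasis ℤ (Additive N)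
  have hsub : ∀ i j : Module.Free.ChooseBasisIndex ℤ (Additive N), i = j := by
    intro i j
    by_contra hij
    have hfinQ : Finite (G ⧸ K) := inferInstance
    classical
    have : Fintype C := Fintype.ofFinite C
    let e : ℕ → ℕ → N := fun s t => (Additive.toMul (b i)) ^ s * (Additive.toMul (b j)) ^ t
    have he : ∀ s t, QuotientGroup.mk' K ((e s t : N) : G) ∈ C := by
      intro s t
      refine hCx _ 1 ?_
      rw [pow_one, hKmem]
      exact ⟨e s t, rfl⟩
    let f : Fin l × Fin l → C := fun st => ⟨_, he st.1 st.2⟩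
    have hf1 : ∀ st, (f st) ^ l = 1 := by
      intro st
      apply Subtype.ext
      change (QuotientGroup.mk' K ((e st.1 st.2 : N) : G)) ^ l = 1
      rw [← map_pow]
      exact (QuotientGroup.eq_one_iff _).mpr ((hKmem _).mpr ⟨e st.1 st.2, rfl⟩)
    have hcoord : ∀ (s t s' t' : ℕ), QuotientGroup.mk' K ((e s t : N) : G) =
        QuotientGroup.mk' K ((e s' t' : N) : G) → (l : ℤ) ∣ (s' : ℤ) - s ∧ (l : ℤ) ∣ (t' : ℤ) - t := by
      intro s t s' t' h
      have h1 : ((e s t : N) : G)⁻¹ * ((e s' t' : N) : G) ∈ K := QuotientGroup.eq.mp h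
      rw [hKmem] at h1
      obtain ⟨y, hy⟩ := h1
      have h2 : y ^ l = (e s t)⁻¹ * e s' t' := by
        apply Subtype.ext
        rw [Subgroup.coe_pow, hy]
        rfl
      have h3 : (l : ℤ) • Additive.ofMul y = ((s' : ℤ) - s) • b i + ((t' : ℤ) - t) • b j := by
        have h4 : Additive.ofMul (y ^ l) = Additive.ofMul ((e s t)⁻¹ * e s' t') := by rw [h2]
        rw [ofMul_pow, ofMul_mul, ofMul_inv] at h4
        rw [natCast_zsmul, h4]
        simp only [e, ofMul_mul, ofMul_pow, ofMul_toMul]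
        simp only [sub_smul, natCast_zsmul]
        abel
      have h5 := congrArg (fun v => b.repr v i) h3
      have h6 := congrArg (fun v => b.repr v j) h3
      simp only [map_smul, map_add, Finsupp.smul_apply, Finsupp.add_apply, b.repr_self,
        Finsupp.single_apply, smul_eq_mul] at h5 h6
      rw [if_pos trivial, if_neg (Ne.symm hij)] at h5
      rw [if_neg hij, if_pos trivial] at h6
      constructor
      · exact ⟨(b.repr (Additive.ofMul y)) i, by linarith⟩
      · exact ⟨(b.repr (Additive.ofMul y)) j, by linarith⟩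
    have hinj : Function.Injective f := by
      rintro ⟨s, t⟩ ⟨s', t'⟩ h
      have h1 := hcoord s t s' t' (congrArg Subtype.val h)
      have hs := s.2
      have ht := t.2
      have hs' := s'.2
      have ht' := t'.2
      have e1 : (s : ℕ) = s' := by
        obtain ⟨c, hc⟩ := h1.1
        have : c = 0 := by
          by_contra hc0
          rcases lt_or_gt_of_ne hc0 with h | h <;> nlinarith
        rw [this] at hc
        omega
      have e2 : (t : ℕ) = t' := by
        obtain ⟨c, hc⟩ := h1.2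
        have : c = 0 := by
          by_contra hc0
          rcases lt_or_gt_of_ne hc0 with h | h <;> nlinarith
        rw [this] at hc
        omega
      rw [Prod.mk.injEq]
      exact ⟨Fin.ext e1, Fin.ext e2⟩
    have hcard := IsCyclic.card_pow_eq_one_le (α := C) hl.pos
    have h2 : (Finset.univ : Finset (Fin l × Fin l)).card ≤
        (Finset.univ.filter fun a : C => a ^ l = 1).card := by
      refine Finset.card_le_card_of_injOn f ?_ hinj.injOn
      intro st _
      simp [hf1 st]
    rw [Finset.card_univ, Fintype.card_prod, Fintype.card_fin] at h2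
    have h3 := hl.one_lt
    nlinarith
  -- `N` is cyclic
  by_cases hne : Nonempty (Module.Free.ChooseBasisIndex ℤ (Additive N))
  · obtain ⟨i⟩ := hne
    refine ⟨⟨Additive.toMul (b i), fun x => ?_⟩⟩
    refine ⟨b.repr (Additive.ofMul x) i, ?_⟩
    have h1 := b.sum_repr (Additive.ofMul x)
    have h2 : (Finset.univ : Finset (Module.Free.ChooseBasisIndex ℤ (Additive N))) = {i} := by
      ext j
      simp [hsub j i]
    rw [h2, Finset.sum_singleton] at h1
    exact h1
  · have h1 := b.sum_repr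
    have h2 : (Finset.univ : Finset (Module.Free.ChooseBasisIndex ℤ (Additive N))) = ∅ := by
      ext j
      exact absurd ⟨j⟩ hne
    refine ⟨⟨1, fun x => ?_⟩⟩
    have h3 := h1 (Additive.ofMul x)
    rw [h2, Finset.sum_empty] at h3
    have h4 : x = 1 := h3.symm
    rw [h4]
    exact ⟨0, zpow_zero 1⟩

/-- virtually residually-`l` groups: subgroups of finite index -/
theorem virtResid_subgroup (G : Type) [Group G] (l : ℕ) (hl : l.Prime) (hv : VirtResid l G)
    (H : Subgroup G) [H.FiniteIndex] : VirtResid l H := by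
  obtain ⟨N0, hN0, h0⟩ := hv
  refine ⟨N0.subgroupOf H, inferInstance, ?_⟩
  intro x hx
  let φ : (N0.subgroupOf H) →* N0 :=
    { toFun := fun y => ⟨((y : H) : G), y.2⟩
      map_one' := rfl
      map_mul' := fun _ _ => rfl }
  have hφ : φ x ≠ 1 := by
    intro h
    apply hx
    apply Subtype.ext
    apply Subtype.ext
    exact congrArg (fun y : N0 => (y : G)) h
  obtain ⟨K, hK, ⟨k, hk⟩, hxK⟩ := h0 (φ x) hφ
  refine ⟨K.comap φ, inferInstance, ?_, hxK⟩
  have h1 : (K.comap φ).index ∣ l ^ k := by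
    rw [index_comap, ← hk]
    exact relIndex_dvd_index_of_normal K φ.range
  obtain ⟨m, -, hm⟩ := (Nat.dvd_prime_pow hl).mp h1
  exact ⟨m, hm⟩

end Pool.Agent.Hhelper49.Srr
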