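import Pool.Agent.Hhelper49.Srd.Defs

/-!
# Module Malcev: finitely generated linear groups of characteristic 0

A finitely generated subgroup `G` of `GL_n(F)`, `F` a field of characteristic zero, is virtually
residually-`l` for infinitely many primes `l`.

Let `A` be the `ℤ`-subalgebra of `F` generated by the entries of finitely many generators of `G` and of
their inverses; `A` is a domain, finitely generated as a ring, so Noetherian and a Jacobson ring.
(1) `IsJacobsonRing A` (`ℤ` is Jacobson, finite type algebras over Jacobson rings are Jacobson), so the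
intersection of all maximal ideals of `A` is `0`.  For a maximal ideal `M` of `A` the field `A / M` is of
finite type over `ℤ`, so `M ∩ ℤ` is maximal, `M ∩ ℤ = (l)`, and `A / M` is finite over `ℤ / l`, so `A / M` is finite
(Mathlib: `RingTheory/Jacobson/Ring`, e.g. `finite_of_finite_type_of_isJacobsonRing`,
`Ideal.comap_isMaximal...`).
If only primes `l ≤ b` occurred as residue characteristics then `b!` would be in every maximal ideal, so
`b! = 0` in `A`, contradiction with characteristic zero.  So there are maximal ideals `M` with residue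
characteristic `l > b`.
(2) Fix such `M`, `l`.  `A / M ^ k` is finite (`M ^ k / M ^ (k+1)` is a finite dimensional vector space over the
finite field `A / M`), and `M / M ^ k` is an additive group killed by `l ^ k` (as `l ∈ M`), so its cardinality is a
power of `l`.  Krull: `⨅ M ^ k = ⊥` (`Ideal.iInf_pow_eq_bot_of_isDomain`).
(3) `G` embeds in `GL_n(A)`.  `N = ker (G → GL_n(A / M))` has finite index.  For `x ∈ N`, `x ≠ 1`, some entry of
`x - 1` is not in `M ^ k` for some `k ≥ 1`; `K = ker (G → GL_n(A / M ^ k)) ∩ N` is normal, does not contain `x`, and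
`N / K` embeds in the group of matrices of `GL_n(A / M ^ k)` which are `1` modulo `M`; it is an `l`-group: for
`y = 1 + z` with entries of `z` in `M ^ i`, `i ≥ 1`: `y ^ l ≡ 1` modulo `M ^ (i+1)` (binomial theorem, `l ∈ M`), so
`y ^ (l ^ k) = 1` modulo `M ^ k`; a finite group in which every element has order a power of `l` has order a
power of `l` (`IsPGroup.iff_card`).
-/

namespace Pool.Agent.Hhelper49.Srr

open Finset

theorem isJacobsonRing_int : IsJacobsonRing ℤ := by
  rw [isJacobsonRing_iff_prime_eq]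
  intro P hP
  by_cases h0 : P = ⊥
  · subst h0
    refine le_antisymm ?_ bot_le
    intro x hx
    by_contra hx0
    have hx0 : x ≠ 0 := by simpa using hx0
    obtain ⟨p, hp1, hp⟩ := Nat.exists_infinite_primes (x.natAbs + 1)
    have hmax : (Ideal.span {(p : ℤ)}).IsMaximal :=
      PrincipalIdealRing.isMaximal_of_irreducible
        (Nat.prime_iff_prime_int.mp hp).irreducible
    have hmem : x ∈ Ideal.span {(p : ℤ)} := by
      rw [Ideal.jacobson, Submodule.mem_sInf] at hx
      exact hx _ ⟨bot_le, hmax⟩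
    rw [Ideal.mem_span_singleton] at hmem
    have h1 : p ∣ x.natAbs := Int.natCast_dvd.mp hmem
    have := Nat.le_of_dvd (Int.natAbs_pos.mpr hx0) h1
    omega
  · have : P.IsMaximal := hP.isMaximal h0
    exact Ideal.jacobson_eq_self_of_isMaximal

/-- residue fields of finitely generated domains of characteristic zero -/
theorem exists_max (A : Type) [CommRing A] [IsDomain A] [CharZero A] [Algebra.FiniteType ℤ A]
    (b : ℕ) : ∃ (M : Ideal A) (l : ℕ), M.IsMaximal ∧ b < l ∧ l.Prime ∧ (l : A) ∈ M ∧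
      Finite (A ⧸ M) := by
  haveI := isJacobsonRing_int
  haveI : IsJacobsonRing A := isJacobsonRing_of_finiteType (A := ℤ)
  have hb : ((b.factorial : ℕ) : A) ∉ (⊥ : Ideal A).jacobson := by
    rw [IsJacobsonRing.out ‹IsJacobsonRing A› (Ideal.isPrime_bot.isRadical)]
    simpa using Nat.factorial_ne_zero b
  rw [Ideal.jacobson, Submodule.mem_sInf] at hb
  push Not at hb
  obtain ⟨M, ⟨-, hM⟩, hMb⟩ := hb
  haveI := hM
  letI : Field (A ⧸ M) := Ideal.Quotient.field M
  haveI : Algebra.FiniteType ℤ (A ⧸ M) := inferInstance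
  haveI hfin : Module.Finite ℤ (A ⧸ M) := finite_of_finite_type_of_isJacobsonRing ℤ (A ⧸ M)
  obtain ⟨p, hp⟩ := CharP.exists (A ⧸ M)
  have hpp : p.Prime := by
    rcases CharP.char_is_prime_or_zero (A ⧸ M) p with h | h
    · exact h
    · exfalso
      subst h
      haveI : CharZero (A ⧸ M) := CharP.charP_to_charZero (A ⧸ M)
      have hinj : Function.Injective (algebraMap ℤ (A ⧸ M)) := by
        intro a b hab
        rw [eq_intCast, eq_intCast] at hab
        exact Int.cast_injective hab
      exact Int.not_isField (isField_of_isIntegral_of_isField hinj (Field.toIsField (A ⧸ M)))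
  have hpM : (p : A) ∈ M := by
    rw [← Ideal.Quotient.eq_zero_iff_mem, map_natCast]
    exact CharP.cast_eq_zero (A ⧸ M) p
  refine ⟨M, p, hM, ?_, hpp, hpM, ?_⟩
  · by_contra hlt
    push Not at hlt
    obtain ⟨c, hc⟩ := (Nat.dvd_factorial hpp.pos hlt)
    apply hMb
    rw [hc, Nat.cast_mul]
    exact Ideal.mul_mem_right _ M hpM
  · apply Module.finite_of_fg_torsion
    intro x
    refine ⟨⟨(p : ℤ), mem_nonZeroDivisors_of_ne_zero (by exact_mod_cast hpp.ne_zero)⟩, ?_⟩
    show (p : ℤ) • x = 0
    rw [zsmul_eq_mul]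
    have : ((p : ℤ) : A ⧸ M) = 0 := by
      have := CharP.cast_eq_zero (A ⧸ M) p
      exact_mod_cast this
    rw [this, zero_mul]

/-- all entries in an ideal -/
def EntIn {A : Type} [CommRing A] {n : ℕ} (I : Ideal A) (z : Matrix (Fin n) (Fin n) A) : Prop :=
  ∀ i j, z i j ∈ I

section Ent

variable {A : Type} [CommRing A] {n : ℕ}

theorem EntIn.add {I : Ideal A} {z w : Matrix (Fin n) (Fin n) A} (hz : EntIn I z)
    (hw : EntIn I w) : EntIn I (z + w) := fun i j => I.add_mem (hz i j) (hw i j)

theorem EntIn.sum {ι : Type} {I : Ideal A} {f : ι → Matrix (Fin n) (Fin n) A} {s : Finset ι}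
    (h : ∀ t ∈ s, EntIn I (f t)) : EntIn I (∑ t ∈ s, f t) := by
  intro i j
  rw [Matrix.sum_apply]
  exact Ideal.sum_mem _ fun t ht => h t ht i j

theorem EntIn.mul {I J : Ideal A} {z w : Matrix (Fin n) (Fin n) A} (hz : EntIn I z)
    (hw : EntIn J w) : EntIn (I * J) (z * w) := by
  intro i j
  rw [Matrix.mul_apply]
  exact Ideal.sum_mem _ fun t _ => Ideal.mul_mem_mul (hz i t) (hw t j)

theorem EntIn.mul_right {I : Ideal A} {z : Matrix (Fin n) (Fin n) A} (hz : EntIn I z)
    (w : Matrix (Fin n) (Fin n) A) : EntIn I (z * w) := by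
  intro i j
  rw [Matrix.mul_apply]
  exact Ideal.sum_mem _ fun t _ => I.mul_mem_right _ (hz i t)

theorem EntIn.mono {I J : Ideal A} (h : I ≤ J) {z : Matrix (Fin n) (Fin n) A} (hz : EntIn I z) :
    EntIn J z := fun i j => h (hz i j)

theorem entIn_pow_sub_one {I : Ideal A} {y : Matrix (Fin n) (Fin n) A} (hy : EntIn I (y - 1))
    (j : ℕ) : EntIn I (y ^ j - 1) := by
  rw [← mul_geom_sum]
  exact hy.mul_right _

theorem entIn_natCast {I : Ideal A} {l : ℕ} (hl : (l : A) ∈ I) :
    EntIn I ((l : ℕ) : Matrix (Fin n) (Fin n) A) := by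
  intro i j
  rw [← Matrix.diagonal_natCast]
  by_cases h : i = j
  · subst h
    simpa using hl
  · rw [Matrix.diagonal_apply_ne _ h]
    exact I.zero_mem

theorem entIn_pow_prime {M : Ideal A} {l : ℕ} (hl : (l : A) ∈ M) {k : ℕ} (hk : 1 ≤ k)
    {y : Matrix (Fin n) (Fin n) A} (hy : EntIn (M ^ k) (y - 1)) :
    EntIn (M ^ (k + 1)) (y ^ l - 1) := by
  rw [← mul_geom_sum, pow_succ]
  refine hy.mul ?_
  have hM : M ^ k ≤ M := Ideal.pow_le_self (by omega)
  have h1 : ∑ i ∈ range l, y ^ i = (∑ i ∈ range l, (y ^ i - 1)) + (l : Matrix (Fin n) (Fin n) A) := by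
    rw [Finset.sum_sub_distrib]
    simp
  rw [h1]
  refine EntIn.add (EntIn.sum fun t _ => ?_) (entIn_natCast hl)
  exact (entIn_pow_sub_one hy t).mono hM

theorem entIn_pow_pow {M : Ideal A} {l : ℕ} (hl : (l : A) ∈ M)
    {y : Matrix (Fin n) (Fin n) A} (hy : EntIn M (y - 1)) (k : ℕ) :
    EntIn (M ^ (k + 1)) (y ^ (l ^ k) - 1) := by
  induction k with
  | zero => simpa using hy
  | succ k ih =>
    rw [pow_succ l k, pow_mul]
    exact entIn_pow_prime hl (by omega) ih

end Ent

/-- reduction of matrices modulo an ideal -/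
noncomputable def redHom {A : Type} [CommRing A] (n : ℕ) (I : Ideal A) :
    (Matrix (Fin n) (Fin n) A)ˣ →* (Matrix (Fin n) (Fin n) (A ⧸ I))ˣ :=
  Units.map ((Ideal.Quotient.mk I).mapMatrix : Matrix (Fin n) (Fin n) A →+* _).toMonoidHom

theorem mem_ker_redHom {A : Type} [CommRing A] {n : ℕ} (I : Ideal A)
    (x : (Matrix (Fin n) (Fin n) A)ˣ) :
    redHom n I x = 1 ↔ EntIn I ((x : Matrix (Fin n) (Fin n) A) - 1) := by
  have h1 : redHom n I x = 1 ↔
      (Ideal.Quotient.mk I).mapMatrix (x : Matrix (Fin n) (Fin n) A) = 1 := by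
    rw [Units.ext_iff]
    rfl
  rw [h1]
  have h2 : (Ideal.Quotient.mk I).mapMatrix (x : Matrix (Fin n) (Fin n) A) = 1 ↔
      (Ideal.Quotient.mk I).mapMatrix ((x : Matrix (Fin n) (Fin n) A) - 1) = 0 := by
    rw [map_sub, map_one, sub_eq_zero]
  rw [h2]
  constructor
  · intro h i j
    have := congrFun (congrFun h i) j
    rw [RingHom.mapMatrix_apply, Matrix.map_apply] at this
    exact Ideal.Quotient.eq_zero_iff_mem.mp this
  · intro h
    ext i j
    rw [RingHom.mapMatrix_apply, Matrix.map_apply]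
    exact Ideal.Quotient.eq_zero_iff_mem.mpr (h i j)

theorem virtResid_of_ring (A : Type) [CommRing A] [IsDomain A] [IsNoetherianRing A]
    (M : Ideal A) (hM : M.IsMaximal) (l : ℕ) (hlp : l.Prime) (hl : (l : A) ∈ M)
    (hfin : Finite (A ⧸ M)) (n : ℕ) (G : Type) [Group G]
    (f : G →* (Matrix (Fin n) (Fin n) A)ˣ) (hf : Function.Injective f) : VirtResid l G := by
  classical
  haveI := Fact.mk hlp
  have hfink : ∀ k, Finite (A ⧸ M ^ k) := fun k =>
    Ideal.finite_quotient_pow (IsNoetherian.noetherian M) k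
  haveI hfinm : ∀ k, Finite (Matrix (Fin n) (Fin n) (A ⧸ M ^ k))ˣ := by
    intro k
    haveI := hfink k
    haveI : Finite (Matrix (Fin n) (Fin n) (A ⧸ M ^ k)) := by
      unfold Matrix
      infer_instance
    infer_instance
  let φ : (k : ℕ) → G →* (Matrix (Fin n) (Fin n) (A ⧸ M ^ k))ˣ := fun k =>
    (redHom n (M ^ k)).comp f
  have hφ : ∀ k x, x ∈ (φ k).ker ↔ EntIn (M ^ k) ((f x : Matrix (Fin n) (Fin n) A) - 1) := by
    intro k x
    rw [MonoidHom.mem_ker]
    exact mem_ker_redHom (M ^ k) (f x)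
  refine ⟨(φ 1).ker, Subgroup.finiteIndex_ker _, ?_⟩
  intro x hx
  -- an entry outside of M ^ k
  have hfx : (f (x : G) : Matrix (Fin n) (Fin n) A) - 1 ≠ 0 := by
    intro h
    apply hx
    have h1 : f (x : G) = 1 := by
      apply Units.ext
      rw [sub_eq_zero] at h
      exact h
    have h2 : (x : G) = 1 := hf (by rw [h1, map_one])
    exact Subtype.ext h2
  obtain ⟨i, j, hij⟩ : ∃ i j, ((f (x : G) : Matrix (Fin n) (Fin n) A) - 1) i j ≠ 0 := by
    by_contra h
    push Not at h
    apply hfx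
    ext i j
    exact h i j
  have hkrull := Ideal.iInf_pow_eq_bot_of_isDomain M hM.ne_top
  obtain ⟨k, hk⟩ : ∃ k, ((f (x : G) : Matrix (Fin n) (Fin n) A) - 1) i j ∉ M ^ k := by
    by_contra h
    push Not at h
    apply hij
    have : ((f (x : G) : Matrix (Fin n) (Fin n) A) - 1) i j ∈ (⨅ i, M ^ i) :=
      (Submodule.mem_iInf _).mpr h
    rw [hkrull] at this
    simpa using this
  refine ⟨((φ k).ker).subgroupOf (φ 1).ker, inferInstance, ?_, ?_⟩
  · haveI : (((φ k).ker).subgroupOf (φ 1).ker).FiniteIndex := by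
      haveI : (φ k).ker.FiniteIndex := Subgroup.finiteIndex_ker _
      infer_instance
    haveI : Finite ((φ 1).ker ⧸ ((φ k).ker).subgroupOf (φ 1).ker) :=
      Subgroup.finite_quotient_of_finiteIndex
    have hp : IsPGroup l ((φ 1).ker ⧸ ((φ k).ker).subgroupOf (φ 1).ker) := by
      intro g
      obtain ⟨y, rfl⟩ := QuotientGroup.mk_surjective g
      refine ⟨l ^ 0 + k, ?_⟩
      rw [← QuotientGroup.mk_pow, QuotientGroup.eq_one_iff, Subgroup.mem_subgroupOf, hφ]
      have hy : EntIn M ((f (y : G) : Matrix (Fin n) (Fin n) A) - 1) := by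
        have := (hφ 1 y).mp y.2
        exact this.mono (by rw [pow_one])
      have h2 := entIn_pow_pow hl hy (l ^ 0 + k)
      have h3 : (f ((y ^ l ^ (l ^ 0 + k) : (φ 1).ker) : G) : Matrix (Fin n) (Fin n) A) =
          (f (y : G) : Matrix (Fin n) (Fin n) A) ^ l ^ (l ^ 0 + k) := by
        rw [Subgroup.coe_pow, map_pow, Units.val_pow_eq_pow_val]
      rw [h3]
      exact h2.mono (Ideal.pow_le_pow_right (by omega))
    obtain ⟨m, hm⟩ := IsPGroup.exists_card_eq hp
    exact ⟨m, by rw [Subgroup.index_eq_card]; exact hm⟩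
  · intro hmem
    rw [Subgroup.mem_subgroupOf, hφ] at hmem
    exact hk (hmem i j)

theorem virtResid_linear (F : Type) [Field F] [CharZero F] (n : ℕ)
    (G : Subgroup (Matrix.GeneralLinearGroup (Fin n) F)) (hG : G.FG) (b : ℕ) :
    ∃ l : ℕ, b < l ∧ l.Prime ∧ VirtResid l G := by
  classical
  obtain ⟨T, hT⟩ := hG
  let S : Finset F := T.biUnion fun g =>
    (Finset.univ : Finset (Fin n × Fin n)).image
        (fun ij => (g : Matrix (Fin n) (Fin n) F) ij.1 ij.2) ∪
      (Finset.univ : Finset (Fin n × Fin n)).image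
        (fun ij => ((g⁻¹ : Matrix.GeneralLinearGroup (Fin n) F) : Matrix (Fin n) (Fin n) F)
          ij.1 ij.2)
  let A : Subalgebra ℤ F := Algebra.adjoin ℤ (S : Set F)
  have hS1 : ∀ g ∈ T, ∀ i j, (g : Matrix (Fin n) (Fin n) F) i j ∈ A := by
    intro g hg i j
    apply Algebra.subset_adjoin
    rw [Finset.mem_coe, Finset.mem_biUnion]
    refine ⟨g, hg, Finset.mem_union_left _ ?_⟩
    rw [Finset.mem_image]
    exact ⟨(i, j), Finset.mem_univ _, rfl⟩
  have hS2 : ∀ g ∈ T, ∀ i j,
      ((g⁻¹ : Matrix.GeneralLinearGroup (Fin n) F) : Matrix (Fin n) (Fin n) F) i j ∈ A := by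
    intro g hg i j
    apply Algebra.subset_adjoin
    rw [Finset.mem_coe, Finset.mem_biUnion]
    refine ⟨g, hg, Finset.mem_union_right _ ?_⟩
    rw [Finset.mem_image]
    exact ⟨(i, j), Finset.mem_univ _, rfl⟩
  haveI : Algebra.FiniteType ℤ A := by
    rw [← Subalgebra.fg_iff_finiteType]
    exact Subalgebra.fg_adjoin_finset S
  haveI : IsNoetherianRing A := Algebra.FiniteType.isNoetherianRing ℤ A
  haveI : CharZero A := by
    refine ⟨fun a b hab => ?_⟩
    have : ((a : A) : F) = ((b : A) : F) := congrArg _ hab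
    push_cast at this
    exact_mod_cast this
  obtain ⟨M, l, hM, hbl, hlp, hl, hfin⟩ := exists_max A b
  refine ⟨l, hbl, hlp, ?_⟩
  let ψ : (Matrix (Fin n) (Fin n) A)ˣ →* Matrix.GeneralLinearGroup (Fin n) F :=
    Units.map ((A.val.toRingHom).mapMatrix :
      Matrix (Fin n) (Fin n) A →+* Matrix (Fin n) (Fin n) F).toMonoidHom
  have hψv : ∀ x i j, (ψ x : Matrix (Fin n) (Fin n) F) i j =
      ((x : Matrix (Fin n) (Fin n) A) i j : F) := fun x i j => rfl
  have hψ : Function.Injective ψ := by
    intro x y hxy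
    apply Units.ext
    ext i j
    rw [← hψv, ← hψv, hxy]
  have hle : G ≤ ψ.range := by
    rw [← hT, Subgroup.closure_le]
    intro g hg
    have hg : g ∈ T := hg
    let X : Matrix (Fin n) (Fin n) A := fun i j => ⟨(g : Matrix (Fin n) (Fin n) F) i j, hS1 g hg i j⟩
    let Y : Matrix (Fin n) (Fin n) A := fun i j =>
      ⟨((g⁻¹ : Matrix.GeneralLinearGroup (Fin n) F) : Matrix (Fin n) (Fin n) F) i j, hS2 g hg i j⟩
    have hXY : X * Y = 1 := by
      ext i j
      have := congrFun (congrFun (g.mul_inv) i) j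
      rw [Matrix.mul_apply] at this
      rw [Matrix.mul_apply]
      push_cast
      refine this.trans ?_
      by_cases h : i = j
      · subst h; simp
      · simp [Matrix.one_apply_ne h]
    have hYX : Y * X = 1 := by
      ext i j
      have := congrFun (congrFun (g.inv_mul) i) j
      rw [Matrix.mul_apply] at this
      rw [Matrix.mul_apply]
      push_cast
      refine this.trans ?_
      by_cases h : i = j
      · subst h; simp
      · simp [Matrix.one_apply_ne h]
    refine ⟨⟨X, Y, hXY, hYX⟩, ?_⟩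
    apply Units.ext
    ext i j
    rfl
  let f : G →* (Matrix (Fin n) (Fin n) A)ˣ :=
    ((MonoidHom.ofInjective hψ).symm.toMonoidHom).comp (Subgroup.inclusion hle)
  have hf : Function.Injective f := by
    intro x y hxy
    have := (MonoidHom.ofInjective hψ).symm.injective hxy
    exact Subgroup.inclusion_injective hle this
  exact virtResid_of_ring A M hM l hlp hl hfin n G f hf

end Pool.Agent.Hhelper49.Srr
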