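import Pool.Agent.Hhelper49.Srr.Cpx
import Pool.Agent.Hhelper49.Srd.Defs

/-!
# Module ResF: restriction to subgroups of finite index, isomorphism invariance

`res_fp`: `H` of finite index in `G`, `M` FP over `ℤ[G]` `⇒ Res H M` FP over `ℤ[H]`: restriction is exact,
`Res H ℤ[G]` is free over `ℤ[H]` of rank `[G : H]` (basis: representatives of the right cosets `H g`,
`G = ⋃ H r`), so finitely generated free modules restrict to finitely generated free modules and
finitely generated projective ones to finitely generated projective ones; induction on the length.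
`Res H (Triv G) ≃ Triv H`.  Then `typeFP_subgroup` with `fp_of_typeFP` and the converse
`typeFP_of_fp` (from an iterated kernel resolution to a complex, as in module Cpx; or restrict the complex
of the definition of `TypeFP` directly, term by term, with `Module.compHom`).

`freeRes_congr`: `FreeRes m` is invariant under isomorphisms of groups (transport the modules `P i` along
`MonoidAlgebra ℤ G ≃+* MonoidAlgebra ℤ G'`, `Module.compHom`).
-/

namespace Pool.Agent.Hhelper49.Srr

section abs

variable {S R : Type} [Ring S] [Ring R] [Module S R] [IsScalarTower S R R] [Module.Free S R]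

theorem resF_proj (M : Type) [AddCommGroup M] [Module R M] [Module S M] [IsScalarTower S R M]
    [Module.Projective R M] : Module.Projective S M := by
  obtain ⟨s, hs⟩ := (Module.projective_def' (R := R) (P := M)).mp inferInstance
  refine Module.Projective.of_split (s.restrictScalars S)
    ((Finsupp.linearCombination R (id : M → M)).restrictScalars S) ?_
  ext x
  exact congrArg (fun f => f x) hs

theorem resF_free (M : Type) [AddCommGroup M] [Module R M] [Module S M] [IsScalarTower S R M]
    [Module.Free R M] : Module.Free S M := by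
  have e := (Module.Free.chooseBasis R M).repr
  exact Module.Free.of_equiv (e.restrictScalars S).symm

theorem resF_fin [Module.Finite S R] (M : Type) [AddCommGroup M] [Module R M] [Module S M]
    [IsScalarTower S R M] [Module.Finite R M] : Module.Finite S M :=
  Module.Finite.trans R M

end abs

section ring

variable {S R : Type} [Ring S] [Ring R] (φ : S →+* R)

/-- restriction of scalars along a ring homomorphism, finite and projective modules -/
theorem resF_ring_proj (hfin : @Module.Finite S R _ _ (Module.compHom R φ))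
    (hfree : @Module.Free S R _ _ (Module.compHom R φ)) (M : Type) [AddCommGroup M] [Module R M]
    (h1 : Module.Finite R M) (h2 : Module.Projective R M) :
    @Module.Finite S M _ _ (Module.compHom M φ) ∧
      @Module.Projective S _ M _ (Module.compHom M φ) := by
  letI : Module S R := Module.compHom R φ
  letI : Module S M := Module.compHom M φ
  haveI : IsScalarTower S R R := ⟨fun s r r' => mul_assoc (φ s) r r'⟩
  haveI : IsScalarTower S R M := ⟨fun s r m => mul_smul (φ s) r m⟩
  exact ⟨resF_fin (R := R) M, resF_proj (R := R) M⟩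

/-- restriction of scalars along a ring homomorphism, finite and free modules -/
theorem resF_ring_free (hfin : @Module.Finite S R _ _ (Module.compHom R φ))
    (hfree : @Module.Free S R _ _ (Module.compHom R φ)) (M : Type) [AddCommGroup M] [Module R M]
    (h1 : Module.Finite R M) (h2 : Module.Free R M) :
    @Module.Finite S M _ _ (Module.compHom M φ) ∧
      @Module.Free S M _ _ (Module.compHom M φ) := by
  letI : Module S R := Module.compHom R φ
  letI : Module S M := Module.compHom M φ
  haveI : IsScalarTower S R R := ⟨fun s r r' => mul_assoc (φ s) r r'⟩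
  haveI : IsScalarTower S R M := ⟨fun s r m => mul_smul (φ s) r m⟩
  exact ⟨resF_fin (R := R) M, resF_free (R := R) M⟩

/-- a linear map after restriction of scalars -/
def resFLin {M M' : Type} [AddCommGroup M] [Module R M] [AddCommGroup M'] [Module R M']
    (f : M →ₗ[R] M') :
    @LinearMap S S _ _ (RingHom.id S) M M' _ _ (Module.compHom M φ) (Module.compHom M' φ) :=
  @LinearMap.mk S S _ _ (RingHom.id S) M M' _ _ (Module.compHom M φ) (Module.compHom M' φ)
    ⟨f, map_add f⟩ (fun r x => map_smul f (φ r) x)

theorem resFLin_range {M M' : Type} [AddCommGroup M] [Module R M] [AddCommGroup M'] [Module R M']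
    (f : M →ₗ[R] M') (x : M') :
    letI := Module.compHom M φ
    letI := Module.compHom M' φ
    x ∈ LinearMap.range (resFLin φ f) ↔ x ∈ LinearMap.range f := Iff.rfl

theorem resFLin_exact {M M' M'' : Type} [AddCommGroup M] [Module R M] [AddCommGroup M']
    [Module R M'] [AddCommGroup M''] [Module R M''] (f : M →ₗ[R] M') (g : M' →ₗ[R] M'')
    (h : LinearMap.range f = LinearMap.ker g) :
    letI := Module.compHom M φ
    letI := Module.compHom M' φ
    letI := Module.compHom M'' φ
    LinearMap.range (resFLin φ f) = LinearMap.ker (resFLin φ g) := by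
  letI := Module.compHom M φ
  letI := Module.compHom M' φ
  letI := Module.compHom M'' φ
  refine Submodule.ext fun x => ?_
  have h1 : x ∈ LinearMap.range f ↔ x ∈ LinearMap.ker g := by rw [h]
  exact h1

end ring

section grp

variable {G : Type} [Group G] (H : Subgroup G)

/-- the ring homomorphism `ℤ[H] → ℤ[G]` -/
noncomputable def resFPhi : MonoidAlgebra ℤ H →+* MonoidAlgebra ℤ G :=
  MonoidAlgebra.mapDomainRingHom ℤ H.subtype

/-- the set of right cosets -/
abbrev resFQ : Type := Quotient (QuotientGroup.rightRel H)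

theorem resF_rel (g : G) :
    g * (Quotient.mk (QuotientGroup.rightRel H) g : resFQ H).out⁻¹ ∈ H := by
  have h1 : (QuotientGroup.rightRel H).r
      (Quotient.mk (QuotientGroup.rightRel H) g : resFQ H).out g := Quotient.mk_out g
  exact QuotientGroup.rightRel_apply.mp h1

theorem resF_single (c : resFQ H) (x : MonoidAlgebra ℤ H) (h : H) :
    (resFPhi H x * MonoidAlgebra.single c.out (1 : ℤ)).coeff ((h : G) * c.out) = x.coeff h := by
  rw [MonoidAlgebra.coeff_mul_single_apply, mul_one, mul_inv_cancel_right]
  exact Finsupp.mapDomain_apply Subtype.val_injective x.coeff h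

theorem resF_single_ne (c c' : resFQ H) (hc : c' ≠ c) (x : MonoidAlgebra ℤ H) (h : H) :
    (resFPhi H x * MonoidAlgebra.single c'.out (1 : ℤ)).coeff ((h : G) * c.out) = 0 := by
  rw [MonoidAlgebra.coeff_mul_single_apply, mul_one]
  refine Finsupp.mapDomain_notin_range x.coeff _ ?_
  rintro ⟨h', hh'⟩
  apply hc
  have h1 : c.out * c'.out⁻¹ ∈ H := by
    have h2 : c.out * c'.out⁻¹ = (h : G)⁻¹ * (h' : G) := by
      have h3 : (h' : G) = (h : G) * c.out * c'.out⁻¹ := hh'
      rw [h3]
      group
    rw [h2]
    exact H.mul_mem (H.inv_mem h.2) h'.2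
  have h3 : (QuotientGroup.rightRel H).r c'.out c.out := QuotientGroup.rightRel_apply.mpr h1
  have h4 : (Quotient.mk (QuotientGroup.rightRel H) c'.out : resFQ H) =
      Quotient.mk (QuotientGroup.rightRel H) c.out := Quotient.sound h3
  rw [Quotient.out_eq, Quotient.out_eq] at h4
  exact h4

variable [Fintype (resFQ H)]

/-- the basis -/
noncomputable def resFPsi (x : resFQ H → MonoidAlgebra ℤ H) : MonoidAlgebra ℤ G :=
  ∑ c, resFPhi H (x c) * MonoidAlgebra.single c.out (1 : ℤ)

theorem resFPsi_add (x y : resFQ H → MonoidAlgebra ℤ H) :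
    resFPsi H (x + y) = resFPsi H x + resFPsi H y := by
  simp only [resFPsi, Pi.add_apply, map_add, add_mul, Finset.sum_add_distrib]

theorem resFPsi_smul (s : MonoidAlgebra ℤ H) (x : resFQ H → MonoidAlgebra ℤ H) :
    resFPsi H (s • x) = resFPhi H s * resFPsi H x := by
  simp only [resFPsi, Pi.smul_apply, smul_eq_mul, map_mul, mul_assoc, Finset.mul_sum]

theorem resFPsi_coeff (x : resFQ H → MonoidAlgebra ℤ H) (c : resFQ H) (h : H) :
    (resFPsi H x).coeff ((h : G) * c.out) = (x c).coeff h := by
  classical
  rw [resFPsi, MonoidAlgebra.coeff_sum, Finsupp.finset_sum_apply, Finset.sum_eq_single c]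
  · exact resF_single H c (x c) h
  · intro c' _ hc
    exact resF_single_ne H c c' hc (x c') h
  · intro hc
    exact absurd (Finset.mem_univ c) hc

theorem resFPsi_inj : Function.Injective (resFPsi H) := by
  intro x y hxy
  funext c
  ext h
  rw [← resFPsi_coeff, ← resFPsi_coeff, hxy]

theorem resFPsi_surj : Function.Surjective (resFPsi H) := by
  classical
  intro y
  induction y using MonoidAlgebra.induction_linear with
  | zero =>
    refine ⟨0, ?_⟩
    simp [resFPsi]
  | add a b ha hb =>
    obtain ⟨x, rfl⟩ := ha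
    obtain ⟨y, rfl⟩ := hb
    exact ⟨x + y, resFPsi_add H x y⟩
  | single g r =>
    obtain ⟨c, hc⟩ : ∃ c : resFQ H, c = Quotient.mk (QuotientGroup.rightRel H) g := ⟨_, rfl⟩
    have hg : g * c.out⁻¹ ∈ H := by
      rw [hc]
      exact resF_rel H g
    refine ⟨Pi.single c (MonoidAlgebra.single (⟨g * c.out⁻¹, hg⟩ : H) r), ?_⟩
    rw [resFPsi, Finset.sum_eq_single c]
    · rw [Pi.single_eq_same]
      have h1 : resFPhi H (MonoidAlgebra.single (⟨g * c.out⁻¹, hg⟩ : H) r) =
          MonoidAlgebra.single (g * c.out⁻¹) r := MonoidAlgebra.mapDomain_single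
      rw [h1, MonoidAlgebra.single_mul_single, inv_mul_cancel_right, mul_one]
    · intro c' _ hc'
      rw [Pi.single_eq_of_ne hc', map_zero, zero_mul]
    · intro h
      exact absurd (Finset.mem_univ c) h

/-- `ℤ[G]` is a free `ℤ[H]`-module of finite rank -/
theorem resF_grp :
    @Module.Finite (MonoidAlgebra ℤ H) (MonoidAlgebra ℤ G) _ _
        (Module.compHom (MonoidAlgebra ℤ G) (resFPhi H)) ∧
      @Module.Free (MonoidAlgebra ℤ H) (MonoidAlgebra ℤ G) _ _
        (Module.compHom (MonoidAlgebra ℤ G) (resFPhi H)) := by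
  letI : Module (MonoidAlgebra ℤ H) (MonoidAlgebra ℤ G) :=
    Module.compHom (MonoidAlgebra ℤ G) (resFPhi H)
  let L : (resFQ H → MonoidAlgebra ℤ H) →ₗ[MonoidAlgebra ℤ H] MonoidAlgebra ℤ G :=
    { toFun := resFPsi H
      map_add' := resFPsi_add H
      map_smul' := fun s x => resFPsi_smul H s x }
  let E := LinearEquiv.ofBijective L ⟨resFPsi_inj H, resFPsi_surj H⟩
  exact ⟨Module.Finite.equiv E, Module.Free.of_equiv E⟩

end grp

theorem typeFP_subgroup (G : Type) [Group G] (h : TypeFP G) (H : Subgroup G) [H.FiniteIndex] :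
    TypeFP H := by
  classical
  have hfQ : Finite (resFQ H) :=
    Finite.of_equiv _ (QuotientGroup.quotientRightRelEquivQuotientLeftRel H).symm
  have : Fintype (resFQ H) := Fintype.ofFinite _
  obtain ⟨P, iA, iM, d, ε, n, hfin, hproj, hsub, hε, hsurj, hex0, hex⟩ := h
  obtain ⟨h1, h2⟩ := resF_grp H
  refine ⟨P, iA, fun i => Module.compHom (P i) (resFPhi H), fun i => resFLin (resFPhi H) (d i), ε,
    n, fun i => (resF_ring_proj (resFPhi H) h1 h2 (P i) (hfin i) (hproj i)).1,
    fun i => (resF_ring_proj (resFPhi H) h1 h2 (P i) (hfin i) (hproj i)).2, hsub, ?_, hsurj, ?_, ?_⟩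
  · intro g x
    have h3 : resFPhi H (MonoidAlgebra.of ℤ H g) = MonoidAlgebra.of ℤ G (g : G) :=
      MonoidAlgebra.mapDomain_single
    show ε (resFPhi H (MonoidAlgebra.of ℤ H g) • x) = ε x
    rw [h3]
    exact hε _ _
  · intro x
    exact hex0 x
  · intro i
    exact resFLin_exact (resFPhi H) (d (i + 1)) (d i) (hex i)

theorem freeRes_congr (m : ℕ) (G G' : Type) [Group G] [Group G'] (e : G ≃* G')
    (h : FreeRes m G) : FreeRes m G' := by
  obtain ⟨P, iA, iM, d, ε, n, hfin, hproj, hsub, hε, hsurj, hex0, hex⟩ := h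
  obtain ⟨φ, hφ⟩ : ∃ φ : MonoidAlgebra ℤ G' →+* MonoidAlgebra ℤ G,
      φ = MonoidAlgebra.mapDomainRingHom ℤ (e.symm : G' →* G) := ⟨_, rfl⟩
  obtain ⟨ψ, hψ⟩ : ∃ ψ : MonoidAlgebra ℤ G →+* MonoidAlgebra ℤ G',
      ψ = MonoidAlgebra.mapDomainRingHom ℤ (e : G →* G') := ⟨_, rfl⟩
  have hof : ∀ g, φ (MonoidAlgebra.of ℤ G' g) = MonoidAlgebra.of ℤ G (e.symm g) := by
    intro g
    rw [hφ]
    exact MonoidAlgebra.mapDomain_single
  have h12 : (φ.comp ψ) = RingHom.id _ := by
    rw [hφ, hψ, ← MonoidAlgebra.mapDomainRingHom_comp, ← MonoidAlgebra.mapDomainRingHom_id]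
    congr 1
    ext x
    simp
  have h21 : (ψ.comp φ) = RingHom.id _ := by
    rw [hφ, hψ, ← MonoidAlgebra.mapDomainRingHom_comp, ← MonoidAlgebra.mapDomainRingHom_id]
    congr 1
    ext x
    simp
  have h1 : @Module.Finite (MonoidAlgebra ℤ G') (MonoidAlgebra ℤ G) _ _
        (Module.compHom (MonoidAlgebra ℤ G) φ) ∧
      @Module.Free (MonoidAlgebra ℤ G') (MonoidAlgebra ℤ G) _ _
        (Module.compHom (MonoidAlgebra ℤ G) φ) := by
    letI : Module (MonoidAlgebra ℤ G') (MonoidAlgebra ℤ G) :=
      Module.compHom (MonoidAlgebra ℤ G) φ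
    let L : MonoidAlgebra ℤ G' →ₗ[MonoidAlgebra ℤ G'] MonoidAlgebra ℤ G :=
      { toFun := φ
        map_add' := map_add φ
        map_smul' := fun s x => map_mul φ s x }
    have hb : Function.Bijective L := by
      refine ⟨fun x y hxy => ?_, fun y => ⟨ψ y, ?_⟩⟩
      · have h3 : φ x = φ y := hxy
        have h4 := congrArg ψ h3
        rw [← RingHom.comp_apply, ← RingHom.comp_apply, h21] at h4
        exact h4
      · show φ (ψ y) = y
        rw [← RingHom.comp_apply, h12]
        rfl
    let E := LinearEquiv.ofBijective L hb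
    exact ⟨Module.Finite.equiv E, Module.Free.of_equiv E⟩
  refine ⟨P, iA, fun i => Module.compHom (P i) φ, fun i => resFLin φ (d i), ε,
    n, fun i => (resF_ring_free φ h1.1 h1.2 (P i) (hfin i) (hproj i)).1,
    fun i => (resF_ring_free φ h1.1 h1.2 (P i) (hfin i) (hproj i)).2, hsub, ?_, hsurj, ?_, ?_⟩
  · intro g x
    show ε (φ (MonoidAlgebra.of ℤ G' g) • x) = ε x
    rw [hof]
    exact hε _ _
  · intro x
    exact hex0 x
  · intro i
    exact resFLin_exact φ (d (i + 1)) (d i) (hex i)

end Pool.Agent.Hhelper49.Srr
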