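import Pool.Agent.Hhelper49.Srr.Cpx
import Pool.Agent.Hhelper49.Srd.Defs

/-!
# Module TorF: groups of type (FP) are torsion free

Let `g` have finite order `q`.  Call a `ℤ[G]`-module `M` weakly projective (`Wp`) if there is an additive map
`θ : M → M` with `∑ g^i θ(g^{-i} x) = x`.  The module `ℤ[G]` has this property (restriction to a transversal of
`G` for the right cosets of `⟨g⟩`), so projective modules have it.  It implies the two properties (`Tt`)
(a) `g x = x` implies `x = N y`, `N = ∑ g^i`; (b) `N x = 0` implies `x = g y - y`.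
If `0 → K → P → M → 0` is exact and `K` and `P` have these two properties then so has `M`.
By downward induction all kernels of a finite projective resolution of `ℤ` have the two properties, and
so has `ℤ`; as `g 1 = 1`, the number `1` is a multiple of `q`.
-/

namespace Pool.Agent.Hhelper49.Srr

section TorFAux

variable {G : Type} [Group G]

/-- the norm `∑ g^i`, `i < q` -/
noncomputable def nrm {M : Type} [AddCommGroup M] [Module (MonoidAlgebra ℤ G) M] (g : G) (q : ℕ) (x : M) : M :=
  ∑ i ∈ Finset.range q, act (g ^ i) x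

theorem nrm_map {M M' : Type} [AddCommGroup M] [Module (MonoidAlgebra ℤ G) M] [AddCommGroup M']
    [Module (MonoidAlgebra ℤ G) M'] (f : M →ₗ[MonoidAlgebra ℤ G] M') (g : G) (q : ℕ) (x : M) :
    f (nrm g q x) = nrm g q (f x) := by
  unfold nrm
  rw [map_sum]
  exact Finset.sum_congr rfl fun i _ => lin_act f _ _

theorem nrm_sub {M : Type} [AddCommGroup M] [Module (MonoidAlgebra ℤ G) M] (g : G) (q : ℕ) (x y : M) :
    nrm g q (x - y) = nrm g q x - nrm g q y := by
  unfold nrm
  rw [← Finset.sum_sub_distrib]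
  exact Finset.sum_congr rfl fun i _ => by rw [act, act, act, smul_sub]

/-- weakly projective -/
def Wp (g : G) (q : ℕ) (M : Type) [AddCommGroup M] [Module (MonoidAlgebra ℤ G) M] : Prop :=
  ∃ θ : M →+ M, ∀ x : M, ∑ i ∈ Finset.range q, act (g ^ i) (θ (act (g ^ i)⁻¹ x)) = x

/-- the two vanishing properties, for a submodule -/
def Tt (g : G) (q : ℕ) {M : Type} [AddCommGroup M] [Module (MonoidAlgebra ℤ G) M]
    (K : Submodule (MonoidAlgebra ℤ G) M) : Prop :=
  (∀ x ∈ K, act g x = x → ∃ y ∈ K, nrm g q y = x) ∧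
    (∀ x ∈ K, nrm g q x = 0 → ∃ y ∈ K, act g y - y = x)

theorem act_pow_sub {M : Type} [AddCommGroup M] [Module (MonoidAlgebra ℤ G) M] (g : G) (i : ℕ) (x : M) :
    ∃ y : M, act g y - y = act (g ^ i) x - x := by
  induction i with
  | zero => exact ⟨0, by rw [pow_zero, act_one, sub_self, act, smul_zero, sub_zero]⟩
  | succ i ih =>
    obtain ⟨y, hy⟩ := ih
    refine ⟨y + act (g ^ i) x, ?_⟩
    have : act g (y + act (g ^ i) x) = act g y + act (g ^ (i + 1)) x := by
      rw [pow_succ', act_mul, act, act, act, smul_add]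
    rw [this]
    have h2 : act g y = y + (act (g ^ i) x - x) := by rw [← hy]; abel
    rw [h2]
    abel

theorem act_inv_pow_nrm {M : Type} [AddCommGroup M] [Module (MonoidAlgebra ℤ G) M] (g : G) (q : ℕ)
    (hq : g ^ q = 1) (x : M) : ∑ i ∈ Finset.range q, act (g ^ i)⁻¹ x = nrm g q x := by
  unfold nrm
  rcases Nat.eq_zero_or_pos q with h0 | h0
  · subst h0
    simp
  obtain ⟨p, rfl⟩ : ∃ p, q = p + 1 := ⟨q - 1, by omega⟩
  rw [Finset.sum_range_succ', Finset.sum_range_succ' (fun i => act (g ^ i) x)]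
  congr 1
  · rw [← Finset.sum_range_reflect]
    refine Finset.sum_congr rfl fun i hi => ?_
    rw [Finset.mem_range] at hi
    congr 1
    rw [inv_eq_iff_mul_eq_one, ← pow_add]
    have : p - 1 - i + 1 + (i + 1) = p + 1 := by omega
    rw [this, hq]
  · simp

theorem Tt_of_Wp (g : G) (q : ℕ) (hq : g ^ q = 1) {M : Type} [AddCommGroup M]
    [Module (MonoidAlgebra ℤ G) M] (h : Wp g q M) : Tt g q (⊤ : Submodule (MonoidAlgebra ℤ G) M) := by
  obtain ⟨θ, hθ⟩ := h
  constructor
  · intro x _ hx
    have hx2 : ∀ i : ℕ, act (g ^ i)⁻¹ x = x := by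
      intro i
      have : act (g ^ i) x = x := by
        induction i with
        | zero => rw [pow_zero, act_one]
        | succ i ih => rw [pow_succ, act_mul, hx, ih]
      calc act (g ^ i)⁻¹ x = act (g ^ i)⁻¹ (act (g ^ i) x) := by rw [this]
        _ = x := act_inv_act _ _
    refine ⟨θ x, trivial, ?_⟩
    have := hθ x
    simp only [hx2] at this
    exact this
  · intro x _ hx
    have h1 : x = ∑ i ∈ Finset.range q, (act (g ^ i) (θ (act (g ^ i)⁻¹ x)) - θ (act (g ^ i)⁻¹ x)) := by
      rw [Finset.sum_sub_distrib, hθ x, ← map_sum, act_inv_pow_nrm g q hq, hx, map_zero, sub_zero]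
    choose y hy using fun i : ℕ => act_pow_sub g i (θ (act (g ^ i)⁻¹ x))
    refine ⟨∑ i ∈ Finset.range q, y i, trivial, ?_⟩
    rw [act, Finset.smul_sum, ← Finset.sum_sub_distrib]
    conv_rhs => rw [h1]
    exact Finset.sum_congr rfl fun i _ => hy i

theorem Tt_range (g : G) (q : ℕ) (hq : g ^ q = 1) {M M' : Type} [AddCommGroup M]
    [Module (MonoidAlgebra ℤ G) M] [AddCommGroup M'] [Module (MonoidAlgebra ℤ G) M']
    (f : M →ₗ[MonoidAlgebra ℤ G] M') (h : Tt g q (LinearMap.ker f))
    (hM : Tt g q (⊤ : Submodule (MonoidAlgebra ℤ G) M)) : Tt g q (LinearMap.range f) := by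
  have hN : ∀ (A : Type) [AddCommGroup A] [Module (MonoidAlgebra ℤ G) A] (x : A),
      nrm g q (act g x - x) = 0 := by
    intro A _ _ x
    rw [nrm_sub, sub_eq_zero]
    unfold nrm
    rcases Nat.eq_zero_or_pos q with h0 | h0
    · subst h0
      simp
    obtain ⟨p, rfl⟩ : ∃ p, q = p + 1 := ⟨q - 1, by omega⟩
    rw [Finset.sum_range_succ, Finset.sum_range_succ' (fun i => act (g ^ i) x)]
    congr 1
    · exact Finset.sum_congr rfl fun i _ => by rw [pow_succ, act_mul]
    · rw [← act_mul, ← pow_succ, hq, pow_zero]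
  have hG : ∀ (A : Type) [AddCommGroup A] [Module (MonoidAlgebra ℤ G) A] (x : A),
      act g (nrm g q x) = nrm g q x := by
    intro A _ _ x
    have h1 : act g (nrm g q x) = nrm g q (act g x) := by
      unfold nrm
      rw [act, Finset.smul_sum]
      refine Finset.sum_congr rfl fun i _ => ?_
      change act g (act (g ^ i) x) = _
      rw [← act_mul, ← act_mul, ← pow_succ, ← pow_succ']
    have h2 := hN A x
    rw [nrm_sub, sub_eq_zero] at h2
    rw [h1, h2]
  constructor
  · rintro _ ⟨p, rfl⟩ hx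
    have h1 : act g p - p ∈ LinearMap.ker f := by
      rw [LinearMap.mem_ker, map_sub, lin_act, hx, sub_self]
    obtain ⟨k, hk, hk2⟩ := h.2 _ h1 (hN M p)
    have h3 : act g (p - k) = p - k := by
      have : act g (p - k) = act g p - act g k := by rw [act, act, act, smul_sub]
      rw [this]
      have e1 : act g k = (act g p - p) + k := by rw [← hk2]; abel
      rw [e1]
      abel
    obtain ⟨y, _, hy⟩ := hM.1 (p - k) trivial h3
    refine ⟨f y, ⟨y, rfl⟩, ?_⟩
    rw [← nrm_map, hy, map_sub, LinearMap.mem_ker.1 hk, sub_zero]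
  · rintro _ ⟨p, rfl⟩ hx
    have h1 : nrm g q p ∈ LinearMap.ker f := by
      rw [LinearMap.mem_ker, nrm_map, hx]
    obtain ⟨k, hk, hk2⟩ := h.1 _ h1 (hG M p)
    have h3 : nrm g q (p - k) = 0 := by rw [nrm_sub, hk2, sub_self]
    obtain ⟨y, _, hy⟩ := hM.2 (p - k) trivial h3
    refine ⟨f y, ⟨y, rfl⟩, ?_⟩
    rw [← lin_act, ← map_sub, hy, map_sub, LinearMap.mem_ker.1 hk, sub_zero]

/-- restriction to a subset -/
noncomputable def thT (T : G → Prop) : MonoidAlgebra ℤ G →+ MonoidAlgebra ℤ G :=
  open Classical in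
  MonoidAlgebra.liftNC ((algebraMap ℤ (MonoidAlgebra ℤ G)).toAddMonoidHom)
    (fun h => if T h then MonoidAlgebra.single h 1 else 0)

open Classical in
theorem thT_single (T : G → Prop) (h : G) (r : ℤ) :
    thT T (MonoidAlgebra.single h r) = if T h then MonoidAlgebra.single h r else 0 := by
  unfold thT
  rw [MonoidAlgebra.liftNC_single]
  split_ifs with hT
  · have e : (algebraMap ℤ (MonoidAlgebra ℤ G)).toAddMonoidHom r = MonoidAlgebra.single 1 r := by
      change algebraMap ℤ (MonoidAlgebra ℤ G) r = _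
      rw [MonoidAlgebra.coe_algebraMap]
      rfl
    change (algebraMap ℤ (MonoidAlgebra ℤ G)).toAddMonoidHom r * _ = _
    rw [e, MonoidAlgebra.single_mul_single, one_mul, mul_one]
  · exact mul_zero _

theorem Wp_ring (g : G) (q : ℕ) (hq : q = orderOf g) (hg : 0 < orderOf g) : Wp g q (MonoidAlgebra ℤ G) := by
  classical
  let C := Subgroup.zpowers g
  let ρ : G → G := fun h => (Quotient.mk (QuotientGroup.rightRel C) h).out
  have hρ1 : ∀ h, h * (ρ h)⁻¹ ∈ C := by
    intro h
    have : (QuotientGroup.rightRel C) (ρ h) h := Quotient.mk_out (s := QuotientGroup.rightRel C) h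
    exact QuotientGroup.rightRel_apply.1 this
  have hρ2 : ∀ h, ∀ c ∈ C, ρ (c * h) = ρ h := by
    intro h c hc
    change (Quotient.mk (QuotientGroup.rightRel C) (c * h)).out = (Quotient.mk (QuotientGroup.rightRel C) h).out
    congr 1
    apply Quotient.sound
    change (QuotientGroup.rightRel C) (c * h) h
    rw [QuotientGroup.rightRel_apply]
    have : h * (c * h)⁻¹ = c⁻¹ := by group
    rw [this]
    exact C.inv_mem hc
  refine ⟨thT (fun h => ρ h = h), ?_⟩
  intro x
  induction x using MonoidAlgebra.induction_linear with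
  | zero => simp [act]
  | add x y hx hy =>
    conv_rhs => rw [← hx, ← hy]
    rw [← Finset.sum_add_distrib]
    refine Finset.sum_congr rfl fun i _ => ?_
    simp only [act, smul_add, map_add]
  | single h r =>
    have hin : ∃ i, i < q ∧ g ^ i = h * (ρ h)⁻¹ := by
      have h1 := hρ1 h
      have hf : IsOfFinOrder g := orderOf_pos_iff.1 hg
      have h2 := (hf.mem_zpowers_iff_mem_range_orderOf).1 h1
      rw [Finset.mem_image] at h2
      obtain ⟨i, hi, hi2⟩ := h2
      exact ⟨i, by rw [hq]; exact Finset.mem_range.1 hi, hi2⟩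
    obtain ⟨i, hi, hi2⟩ := hin
    have key : ∀ j ∈ Finset.range q, act (g ^ j) (thT (fun h => ρ h = h)
        (act (g ^ j)⁻¹ (MonoidAlgebra.single h r))) = if j = i then MonoidAlgebra.single h r else 0 := by
      intro j hj
      rw [Finset.mem_range] at hj
      have e1 : act (g ^ j)⁻¹ (MonoidAlgebra.single h r) = MonoidAlgebra.single ((g ^ j)⁻¹ * h) r := by
        rw [act, smul_eq_mul, MonoidAlgebra.of_apply, MonoidAlgebra.single_mul_single, one_mul]
      rw [e1, thT_single]
      have hc : (g ^ j)⁻¹ ∈ C := C.inv_mem (Subgroup.pow_mem _ (Subgroup.mem_zpowers g) j)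
      rw [hρ2 h _ hc]
      by_cases hji : j = i
      · subst hji
        have : ρ h = (g ^ j)⁻¹ * h := by
          rw [hi2]; group
        rw [if_pos this, if_pos rfl, act, smul_eq_mul, MonoidAlgebra.of_apply,
          MonoidAlgebra.single_mul_single, one_mul, mul_inv_cancel_left]
      · have : ¬ ρ h = (g ^ j)⁻¹ * h := by
          intro h3
          apply hji
          have h4 : g ^ j = g ^ i := by
            rw [hi2, h3]; group
          exact pow_injOn_Iio_orderOf (by rw [← hq]; exact hj) (by rw [← hq]; exact hi) h4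
        rw [if_neg this, if_neg hji, act, smul_zero]
    rw [Finset.sum_congr rfl key, Finset.sum_ite_eq' (Finset.range q) i, if_pos (Finset.mem_range.2 hi)]

theorem Wp_finsupp (g : G) (q : ℕ) (h : Wp g q (MonoidAlgebra ℤ G)) (X : Type) :
    Wp g q (X →₀ MonoidAlgebra ℤ G) := by
  obtain ⟨θ, hθ⟩ := h
  refine ⟨Finsupp.mapRange.addMonoidHom θ, ?_⟩
  intro x
  ext1 a
  have h1 := hθ (x a)
  rw [Finsupp.finsetSum_apply]
  exact h1

theorem Wp_projective (g : G) (q : ℕ) (h : Wp g q (MonoidAlgebra ℤ G)) (P : Type) [AddCommGroup P]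
    [Module (MonoidAlgebra ℤ G) P] [Module.Projective (MonoidAlgebra ℤ G) P] : Wp g q P := by
  obtain ⟨s, hs⟩ := Module.projective_def.1 (inferInstance : Module.Projective (MonoidAlgebra ℤ G) P)
  obtain ⟨θ, hθ⟩ := Wp_finsupp g q h P
  let L : (P →₀ MonoidAlgebra ℤ G) →ₗ[MonoidAlgebra ℤ G] P := Finsupp.linearCombination (MonoidAlgebra ℤ G) id
  refine ⟨L.toAddMonoidHom.comp (θ.comp s.toAddMonoidHom), ?_⟩
  intro x
  have h1 := congrArg L (hθ (s x))
  rw [map_sum] at h1
  rw [hs x] at h1
  rw [← h1]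
  conv_rhs => rw [← h1]
  refine Finset.sum_congr rfl fun i _ => ?_
  rw [lin_act]
  congr 1
  change L (θ (s _)) = _
  rw [h1, lin_act]

end TorFAux

theorem torFree_of_typeFP (G : Type) [Group G] (h : TypeFP G) : TorFree G := by
  intro g k hk hgk
  obtain ⟨P, i1, i2, d, ε, n, h1, h2, h3, h4, h5, h6, h7⟩ := h
  have hord : 0 < orderOf g := orderOf_pos_iff.2 (isOfFinOrder_iff_pow_eq_one.2 ⟨k, hk, hgk⟩)
  set q := orderOf g with hq
  have hgq : g ^ q = 1 := pow_orderOf_eq_one g
  have hP : ∀ i, Tt g q (⊤ : Submodule (MonoidAlgebra ℤ G) (P i)) := by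
    intro i
    have := h2 i
    exact Tt_of_Wp g q hgq (Wp_projective g q (Wp_ring g q hq hord) (P i))
  have hR : ∀ j i, n ≤ i + j → Tt g q (LinearMap.range (d i)) := by
    intro j
    induction j with
    | zero =>
      intro i hi
      have := h3 (i + 1) (by omega)
      constructor
      · rintro _ ⟨p, rfl⟩ _
        refine ⟨0, Submodule.zero_mem _, ?_⟩
        rw [Subsingleton.elim p 0, map_zero]
        simp [nrm, act]
      · rintro _ ⟨p, rfl⟩ _
        refine ⟨0, Submodule.zero_mem _, ?_⟩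
        rw [Subsingleton.elim p 0, map_zero]
        simp [act]
    | succ j ih =>
      intro i hi
      refine Tt_range g q hgq (d i) ?_ (hP (i + 1))
      rw [← h7 i]
      exact ih (i + 1) (by omega)
  have hR0 := hR n 0 (by omega)
  obtain ⟨p, hp⟩ := h5 1
  have e1 : act g p - p ∈ LinearMap.range (d 0) := by
    rw [← h6, map_sub]
    change ε (MonoidAlgebra.of ℤ G g • p) - ε p = 0
    rw [h4, sub_self]
  have e2 : nrm g q (act g p - p) = 0 := by
    rw [nrm_sub, sub_eq_zero]
    unfold nrm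
    obtain ⟨m, hm⟩ : ∃ m, q = m + 1 := ⟨q - 1, by omega⟩
    rw [hm, Finset.sum_range_succ, Finset.sum_range_succ' (fun i => act (g ^ i) p)]
    congr 1
    · exact Finset.sum_congr rfl fun i _ => by rw [pow_succ, act_mul]
    · rw [← act_mul, ← pow_succ, ← hm, hgq, pow_zero]
  obtain ⟨k', hk', hk2⟩ := hR0.2 _ e1 e2
  have e3 : act g (p - k') = p - k' := by
    have : act g (p - k') = act g p - act g k' := by rw [act, act, act, smul_sub]
    rw [this]
    have e1 : act g k' = (act g p - p) + k' := by rw [← hk2]; abel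
    rw [e1]
    abel
  obtain ⟨y, _, hy⟩ := (hP 0).1 (p - k') trivial e3
  have e4 : ε (nrm g q y) = q * ε y := by
    unfold nrm
    rw [map_sum]
    have : ∀ i ∈ Finset.range q, ε (act (g ^ i) y) = ε y := fun i _ => h4 _ _
    rw [Finset.sum_congr rfl this, Finset.sum_const, Finset.card_range, nsmul_eq_mul]
  have e5 : (1 : ℤ) = q * ε y := by
    rw [← e4, hy, map_sub, hp, (h6 k').2 hk', sub_zero]
  have e6 : q = 1 := by
    have : (q : ℤ) ∣ 1 := ⟨_, e5⟩
    have h8 : q ∣ 1 := by exact_mod_cast this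
    exact Nat.dvd_one.1 h8
  rw [hq] at e6
  exact orderOf_eq_one_iff.1 e6

end Pool.Agent.Hhelper49.Srr
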