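import Pool.Agent.Hhelper49.Srd.Defs

/-!
# Module VirtZ: torsion free virtually cyclic groups are cyclic

`N = ⟨x⟩` cyclic, normal and of finite index in the torsion free group `G`.  If `x = 1` then `G` is finite,
hence trivial.  Otherwise `x` has infinite order and every `g ∈ G` satisfies `g x g⁻¹ = x` or `x⁻¹`
(`g x g⁻¹` is a generator of `N`).
If `g x g⁻¹ = x⁻¹`: there is `k ≥ 1` with `g^k = x^m ∈ N`; `g` commutes with `g^k`, so `x^m = g x^m g⁻¹ = x^(-m)`,
`x^(2m) = 1`, `m = 0`, `g^k = 1`, `g = 1`, contradiction with `x ≠ x⁻¹`.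
So `N` is central.  Then `G` is abelian: the commutator `[g, h]` of two elements: by Schur's theorem the
commutator subgroup is finite (Mathlib: `Subgroup.card_commutator_...` for finite index centre), hence
trivial.  (Alternatively: the transfer, or: `G` embeds ...)  A finitely generated (finite extension of
cyclic) torsion free abelian group with an infinite cyclic subgroup of finite index is infinite
cyclic (for example: `g ↦ ` the `m` with `g^n = x^m`, `n = [G : N]`, is an injective homomorphism `G → ℤ`).
-/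

namespace Pool.Agent.Hhelper49.Srr

namespace VirtZAux

theorem zpow_eq_zero {G : Type} [Group G] (ht : TorFree G) {x : G} (hx : x ≠ 1) {k : ℤ}
    (h : x ^ k = 1) : k = 0 := by
  by_contra hk
  apply hx
  apply ht x k.natAbs (Int.natAbs_pos.mpr hk)
  rcases Int.natAbs_eq k with h1 | h1
  · rw [h1, zpow_natCast] at h
    exact h
  · rw [h1, zpow_neg, zpow_natCast, inv_eq_one] at h
    exact h

theorem pow_inj {G : Type} [Group G] (ht : TorFree G) {n : ℕ} (hn : 0 < n) {a b : G}
    (hab : Commute a b) (h : a ^ n = b ^ n) : a = b := by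
  have h1 : (a * b⁻¹) ^ n = 1 := by
    rw [(hab.inv_right).mul_pow, inv_pow, h, mul_inv_cancel]
  have h2 := ht _ n hn h1
  exact mul_inv_eq_one.mp h2

theorem central {G : Type} [Group G] (ht : TorFree G) (N : Subgroup G) [hN : N.Normal]
    [hf : N.FiniteIndex] (hc : IsCyclic N) : N ≤ Subgroup.center G := by
  obtain ⟨⟨x, hxN⟩, hx⟩ := hc.exists_generator
  have hgen : ∀ y ∈ N, ∃ k : ℤ, x ^ k = y := by
    intro y hy
    obtain ⟨k, hk⟩ := Subgroup.mem_zpowers_iff.mp (hx ⟨y, hy⟩)
    exact ⟨k, congrArg Subtype.val hk⟩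
  have hcomm : ∀ g : G, g * x * g⁻¹ = x := by
    intro g
    by_cases hx1 : x = 1
    · rw [hx1, mul_one, mul_inv_cancel]
    obtain ⟨k, hk⟩ := hgen _ (hN.conj_mem x hxN g)
    obtain ⟨l, hl⟩ := hgen _ (hN.conj_mem x hxN g⁻¹)
    rw [inv_inv] at hl
    have h1 : x ^ (k * l) = x := by
      rw [zpow_mul, hk, conj_zpow, hl]
      group
    have h2 : x ^ (k * l - 1) = 1 := by
      rw [zpow_sub, h1, zpow_one, mul_inv_cancel]
    have h3 : k * l = 1 := by
      have := zpow_eq_zero ht hx1 h2
      omega
    rcases Int.eq_one_or_neg_one_of_mul_eq_one h3 with h4 | h4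
    · rw [h4, zpow_one] at hk
      exact hk.symm
    · exfalso
      rw [h4] at hk
      obtain ⟨m, hm⟩ := hgen _ (Subgroup.pow_index_mem N g)
      have h5 : g * x ^ m * g⁻¹ = x ^ m := by
        rw [hm, ← pow_succ', pow_succ, mul_inv_cancel_right]
      rw [← conj_zpow, ← hk, ← zpow_mul] at h5
      have h6 : x ^ (-1 * m - m) = 1 := by
        rw [zpow_sub, h5, mul_inv_cancel]
      have h7 := zpow_eq_zero ht hx1 h6
      have h8 : m = 0 := by omega
      rw [h8, zpow_zero] at hm
      have h9 : g = 1 := ht g N.index (Nat.pos_of_ne_zero hf.index_ne_zero) hm.symm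
      rw [h9, inv_one, mul_one, one_mul] at hk
      have h10 : x ^ (-1 - 1 : ℤ) = 1 := by
        rw [zpow_sub, hk, zpow_one, mul_inv_cancel]
      have h11 := zpow_eq_zero ht hx1 h10
      omega
  intro y hy
  obtain ⟨k, rfl⟩ := hgen y hy
  rw [Subgroup.mem_center_iff]
  intro g
  have h1 : g * x ^ k * g⁻¹ = x ^ k := by
    rw [← conj_zpow, hcomm g]
  calc g * x ^ k = g * x ^ k * g⁻¹ * g := by rw [inv_mul_cancel_right]
    _ = x ^ k * g := by rw [h1]

theorem commutative {G : Type} [Group G] (ht : TorFree G) (N : Subgroup G) [N.Normal]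
    [N.FiniteIndex] (hc : IsCyclic N) (a b : G) : a * b = b * a := by
  have hle := central ht N hc
  have hfi : (Subgroup.center G).FiniteIndex := Subgroup.finiteIndex_of_le hle
  have hpos : 0 < (Subgroup.center G).index := Nat.pos_of_ne_zero hfi.index_ne_zero
  have hinj : ∀ g h : G, MonoidHom.transferCenterPow G g = MonoidHom.transferCenterPow G h →
      g = h := by
    intro g h hgh
    have h1 : MonoidHom.transferCenterPow G (g * h⁻¹) = 1 := by
      rw [map_mul, map_inv, hgh, mul_inv_cancel]
    have h2 := MonoidHom.transferCenterPow_apply (g * h⁻¹)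
    rw [h1] at h2
    have h3 := ht _ _ hpos h2.symm
    exact mul_inv_eq_one.mp h3
  apply hinj
  rw [map_mul, map_mul]
  exact Subtype.ext ((Subgroup.mem_center_iff.mp (MonoidHom.transferCenterPow G b).2 _))

end VirtZAux

open VirtZAux

theorem cyclic_of_virt (G : Type) [Group G] (ht : TorFree G) (N : Subgroup G) [N.Normal]
    [N.FiniteIndex] (hc : IsCyclic N) : IsCyclic G := by
  have hcomm := commutative ht N hc
  have hpos : 0 < N.index := Nat.pos_of_ne_zero Subgroup.FiniteIndex.index_ne_zero
  let f : G →* N :=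
    { toFun := fun g => ⟨g ^ N.index, Subgroup.pow_index_mem N g⟩
      map_one' := Subtype.ext (one_pow _)
      map_mul' := fun a b => Subtype.ext ((show Commute a b from hcomm a b).mul_pow _) }
  have hf : Function.Injective f := by
    intro a b hab
    exact pow_inj ht hpos (hcomm a b) (congrArg Subtype.val hab)
  exact isCyclic_of_injective f hf

end Pool.Agent.Hhelper49.Srr
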