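import Pool.Agent.Hhelper49.Srr.Final
import Pool.Agent.Hhelper49.Srd.ResF
import Pool.Agent.Hhelper49.Srd.FGen
import Pool.Agent.Hhelper49.Srd.TorF
import Pool.Agent.Hhelper49.Srd.CycFF
import Pool.Agent.Hhelper49.Srd.VirtZ
import Pool.Agent.Hhelper49.Srd.Hyp
import Pool.Agent.Hhelper49.Srd.Malcev
import Pool.Agent.Hhelper49.Srd.Betti

/-!
# Deep: counterexamples with many finite quotients have deep subgroups which are not (FF)
-/

namespace Pool.Agent.Hhelper49.Srr

/-- no trivial module `ℤ^m` with `m` prime to `p` has a finite free resolution -/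
def Bad (p : ℕ) (G : Type) [Group G] : Prop := ∀ m : ℕ, m.Coprime p → ¬ FreeRes m G

/-- all finite quotients are `p`-hyperelementary -/
def HypQ (p : ℕ) (G : Type) [Group G] : Prop :=
  ∀ (Q : Type) [Group Q] [Finite Q] (π : G →* Q), Function.Surjective π →
    IsHyp p (⊤ : Subgroup Q)

theorem bad_congr (p : ℕ) (G G' : Type) [Group G] [Group G'] (e : G ≃* G') (h : Bad p G) :
    Bad p G' := fun m hm h1 => h m hm (freeRes_congr m _ _ e.symm h1)

theorem not_typeFF_of_bad {p : ℕ} {G : Type} [Group G] (h : Bad p G) : ¬ TypeFF G :=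
  fun h1 => h 1 (Nat.coprime_one_left p) (freeRes_of_typeFF _ h1)

/-- the induction theorem for bad groups -/
theorem bad_hyp (G : Type) [Group G] (hG : TypeFP G) (p : ℕ) (hp : p.Prime) (hB : Bad p G)
    (Q : Type) [Group Q] [Finite Q] (π : G →* Q) :
    ∃ H : Subgroup Q, IsHyp p H ∧ Bad p (H.comap π) := by
  by_contra hcon
  push Not at hcon
  obtain ⟨m, hm, hm'⟩ := core G (fp_of_typeFP G hG) Q π p hp (by
    intro H hH
    have h1 := hcon H hH
    unfold Bad at h1
    push Not at h1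
    obtain ⟨m, hm, hm'⟩ := h1
    exact ⟨m, hm, (freeRes_iff m _).1 hm'⟩)
  exact hB m hm ((freeRes_iff m G).2 hm')

/-- a bad group all of whose proper subgroups of finite index are good -/
theorem minimal (G : Type) [Group G] (hG : TypeFP G) (p : ℕ) (hp : p.Prime) (hB : Bad p G)
    (hproper : ∀ K : Subgroup G, K.FiniteIndex → K ≠ ⊤ → ¬ Bad p K) : HypQ p G := by
  intro Q _ _ π hπ
  obtain ⟨H, hH, hm⟩ := bad_hyp G hG p hp hB Q π
  have htop : H.comap π = ⊤ := by
    by_contra hcon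
    have hfi : (H.comap π).FiniteIndex := by
      have h0 : H.FiniteIndex := inferInstance
      refine ⟨?_⟩
      rw [Subgroup.index_comap_of_surjective H hπ]
      exact h0.index_ne_zero
    exact hproper (H.comap π) hfi hcon hm
  have : H = ⊤ := by
    rw [eq_top_iff]
    intro q _
    obtain ⟨g, rfl⟩ := hπ q
    have : g ∈ H.comap π := by
      rw [htop]
      exact Subgroup.mem_top g
    exact this
  rwa [this] at hH

/-- a bad group with a bound for the index of bad subgroups has a subgroup of finite index which is bad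
and has only hyperelementary finite quotients -/
theorem deep_bad (G : Type) [Group G] (hG : TypeFP G) (p : ℕ) (hp : p.Prime) (hB : Bad p G)
    (hmin : ∀ K : Subgroup G, K.FiniteIndex → TypeFP K → Bad p K → HypQ p K → False) (n : ℕ) :
    ∃ H : Subgroup G, H.FiniteIndex ∧ n ≤ H.index ∧ Bad p H := by
  classical
  by_contra hcon
  push Not at hcon
  -- a bad subgroup of maximal finite index
  have hbad : ∃ k : ℕ, ∃ H : Subgroup G, H.FiniteIndex ∧ Bad p H ∧ H.index = k := by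
    refine ⟨1, ⊤, inferInstance, ?_, Subgroup.index_top⟩
    exact bad_congr p _ _ Subgroup.topEquiv.symm hB
  have hbound : ∀ k : ℕ, (∃ H : Subgroup G, H.FiniteIndex ∧ Bad p H ∧ H.index = k) → k ≤ n := by
    rintro k ⟨H, hH1, hH2, rfl⟩
    by_contra hcon2
    exact hcon H hH1 (by omega) hH2
  obtain ⟨k, hk, hkmax⟩ : ∃ k : ℕ,
      (∃ H : Subgroup G, H.FiniteIndex ∧ Bad p H ∧ H.index = k) ∧
      ∀ j : ℕ, (∃ H : Subgroup G, H.FiniteIndex ∧ Bad p H ∧ H.index = j) → j ≤ k := by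
    obtain ⟨k0, hk0⟩ := hbad
    refine ⟨Nat.findGreatest
      (fun k => ∃ H : Subgroup G, H.FiniteIndex ∧ Bad p H ∧ H.index = k) n, ?_, ?_⟩
    · exact Nat.findGreatest_spec
        (P := fun k => ∃ H : Subgroup G, H.FiniteIndex ∧ Bad p H ∧ H.index = k)
        (hbound k0 hk0) hk0
    · intro j hj
      exact Nat.le_findGreatest (hbound j hj) hj
  obtain ⟨H, hH1, hH2, hH3⟩ := hk
  have hHP : TypeFP H := typeFP_subgroup G hG H
  refine hmin H hH1 hHP hH2 (minimal H hHP p hp hH2 ?_)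
  intro K hK hKtop hKB
  have h3 : (K.map H.subtype).index = H.index * K.index := by
    rw [Subgroup.index_map_subtype, mul_comm]
  have hHpos : H.index ≠ 0 := hH1.index_ne_zero
  have hKpos : K.index ≠ 0 := hK.index_ne_zero
  have hK1 : K.index ≠ 1 := fun h4 => hKtop (Subgroup.index_eq_one.1 h4)
  have h5 : (K.map H.subtype).FiniteIndex := ⟨by
    rw [h3]
    exact Nat.mul_ne_zero hHpos hKpos⟩
  have h6 : Bad p (K.map H.subtype) :=
    bad_congr p _ _ (K.equivMapOfInjective H.subtype H.subtype_injective) hKB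
  have h7 := hkmax _ ⟨K.map H.subtype, h5, h6, rfl⟩
  rw [h3, hH3] at h7
  have h8 : 2 ≤ K.index := by omega
  have h9 : 0 < k := by omega
  nlinarith

/-- a counterexample is bad at some prime -/
theorem exists_bad (G : Type) [Group G] (hG : TypeFP G) (hF : ¬ TypeFF G) :
    ∃ p : ℕ, p.Prime ∧ Bad p G := by
  obtain ⟨p, hp, h⟩ := final G hG hF
  obtain ⟨H, hH, hm⟩ := h Unit (1 : G →* Unit)
  have htop : H.comap (1 : G →* Unit) = ⊤ := by
    rw [eq_top_iff]
    intro g _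
    rw [Subgroup.mem_comap]
    have : (1 : G →* Unit) g = 1 := rfl
    rw [this]
    exact H.one_mem
  have h3 : Bad p (H.comap (1 : G →* Unit)) := hm
  rw [htop] at h3
  exact ⟨p, hp, bad_congr p _ _ Subgroup.topEquiv h3⟩

/-- groups with residual properties at two primes -/
theorem deep (G : Type) [Group G] (hG : TypeFP G) (hF : ¬ TypeFF G) (l₁ l₂ : ℕ) (h1 : l₁.Prime)
    (h2 : l₂.Prime) (hne : l₁ ≠ l₂) (hv1 : VirtResid l₁ G) (hv2 : VirtResid l₂ G) :
    ∃ p : ℕ, p.Prime ∧ ∀ n : ℕ, ∃ H : Subgroup G, H.FiniteIndex ∧ n ≤ H.index ∧ ¬ TypeFF H ∧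
      ∀ m : ℕ, m.Coprime p → ¬ FreeRes m H := by
  obtain ⟨p, hp, hB⟩ := exists_bad G hG hF
  refine ⟨p, hp, fun n => ?_⟩
  obtain ⟨l, hl, hlp, hv⟩ : ∃ l : ℕ, l.Prime ∧ l ≠ p ∧ VirtResid l G := by
    by_cases h3 : l₁ = p
    · exact ⟨l₂, h2, fun h4 => hne (h3.trans h4.symm), hv2⟩
    · exact ⟨l₁, h1, h3, hv1⟩
  obtain ⟨H, hH1, hH2, hH3⟩ := deep_bad G hG p hp hB (by
    intro K hK hKP hKB hKQ
    have hfg := fg_of_typeFP K hKP
    have ht := torFree_of_typeFP K hKP
    obtain ⟨N, hN1, hN2, hN3⟩ := exists_cyclic_normal K ht p l hp hl hlp hKQ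
      (virtResid_subgroup G l hl hv K)
    have hc := cyclic_of_virt K ht N hN3
    exact not_typeFF_of_bad hKB (typeFF_of_cyclic K hc ht)) n
  exact ⟨H, hH1, hH2, not_typeFF_of_bad hH3, hH3⟩

/-- linear groups over fields of characteristic zero -/
theorem deep_linear (F : Type) [Field F] [CharZero F] (n : ℕ)
    (G : Subgroup (Matrix.GeneralLinearGroup (Fin n) F)) (hG : TypeFP G) (hF : ¬ TypeFF G) :
    ∃ p : ℕ, p.Prime ∧ ∀ n : ℕ, ∃ H : Subgroup G, H.FiniteIndex ∧ n ≤ H.index ∧ ¬ TypeFF H ∧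
      ∀ m : ℕ, m.Coprime p → ¬ FreeRes m H := by
  have hfg : G.FG := (Group.fg_iff_subgroup_fg G).1 (fg_of_typeFP G hG)
  obtain ⟨l₁, -, h1, hv1⟩ := virtResid_linear F n G hfg 0
  obtain ⟨l₂, h3, h2, hv2⟩ := virtResid_linear F n G hfg l₁
  exact deep G hG hF l₁ l₂ h1 h2 (by omega) hv1 hv2

/-- groups with virtual first Betti number at least two -/
theorem deep_betti (G : Type) [Group G] (hG : TypeFP G) (hF : ¬ TypeFF G)
    (hb : VirtBettiTwo G) :
    ∃ p : ℕ, p.Prime ∧ ∀ n : ℕ, ∃ H : Subgroup G, H.FiniteIndex ∧ n ≤ H.index ∧ ¬ TypeFF H ∧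
      ∀ m : ℕ, m.Coprime p → ¬ FreeRes m H := by
  obtain ⟨p, hp, hB⟩ := exists_bad G hG hF
  refine ⟨p, hp, fun n => ?_⟩
  obtain ⟨H, hH1, hH2, hH3⟩ := deep_bad G hG p hp hB
    (fun K _ _ _ hKQ => not_hyp_of_betti K (betti_subgroup G hb K) p hp hKQ) n
  exact ⟨H, hH1, hH2, not_typeFF_of_bad hH3, hH3⟩

end Pool.Agent.Hhelper49.Srr
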