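import Pool.Agent.Hhelper49.Srr.GDefs

/-!
# Definitions for the statement of DeepSubgroups
-/

namespace Pool.Agent.Hhelper49.Srr

/-- `G` is of type (FP) but not of type (FF) -/
def Counterexample (G : Type) [Group G] : Prop := TypeFP G ∧ ¬ TypeFF G

/-- `G` has, for some prime `p`, subgroups `H` of arbitrarily large finite index which are not of type (FF)
and for which no trivial module `ℤ^m` with `m` prime to `p` has a finite free resolution -/
def DeepFailure (G : Type) [Group G] : Prop :=
  ∃ p : ℕ, p.Prime ∧ ∀ n : ℕ, ∃ H : Subgroup G, H.FiniteIndex ∧ n ≤ H.index ∧ ¬ TypeFF H ∧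
    ∀ m : ℕ, m.Coprime p → ¬ FreeRes m H

end Pool.Agent.Hhelper49.Srr
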